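import Pool.Agent.T6.H49.RO.Tree
import Pool.Agent.Y626.WC.Main

/-!
# Dense random oracles: `W[1]` collapses to `FPT`
-/

set_option autoImplicit false

namespace Pool.Agent.T6.H49.RO

open MeasureTheory Pool.Agent.NPC Pool.Agent.H620R2.Gauge Pool.Agent.TH678.GC
  Pool.Agent.Y626.WG
open Pool.Agent.Y626.WC

/-- the smaller one of the two probabilities -/
noncomputable def mp (p : ℕ → unitInterval) (ℓ : ℕ) : ℝ := min (p ℓ : ℝ) (1 - p ℓ)

theorem mp_nonneg (p : ℕ → unitInterval) (ℓ : ℕ) : 0 ≤ mp p ℓ :=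
  le_min (p ℓ).2.1 (by linarith [(p ℓ).2.2])

theorem mp_le_one (p : ℕ → unitInterval) (ℓ : ℕ) : mp p ℓ ≤ 1 :=
  (min_le_left _ _).trans (p ℓ).2.2

/-- The bound for the number of questions. -/
def bdP (f : ℕ → ℕ) (w n : ℕ) : ℕ := f w * (n + 1) * (2 * n + 2) * w ^ 2

theorem errP {x : ℝ} {M : ℕ} (hx1 : x ≤ 1) (h : 1 ≤ M * x) (r : ℕ) :
    (1 - x) ^ (M * r) ≤ (1 / 2 : ℝ) ^ r := by
  rw [pow_mul]
  refine pow_le_pow_left₀ (pow_nonneg (by linarith) _) ?_ r
  have h1 : 1 - x ≤ Real.exp (-x) := by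
    have := Real.add_one_le_exp (-x)
    linarith
  have h2 : (1 - x) ^ M ≤ Real.exp (-x) ^ M := pow_le_pow_left₀ (by linarith) h1 _
  refine h2.trans ?_
  rw [← Real.exp_nat_mul]
  have h3 : (M : ℝ) * -x ≤ -1 := by linarith
  refine (Real.exp_le_exp.2 h3).trans ?_
  rw [Real.exp_neg]
  have := Real.exp_one_gt_d9
  rw [inv_le_comm₀ (by positivity) (by norm_num)]
  norm_num
  linarith

theorem one_instP (p : ℕ → unitInterval) {f : ℕ → ℕ}
    (hf : ∀ w ℓ : ℕ, 1 ≤ (f w : ℝ) * (ℓ + 1) * mp p ℓ ^ w) (E : Oracle) {I : Inst}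
    (hI : I.IsW 1) (n : ℕ) (hn : (bits I).length ^ 2 ≤ n) :
    ∃ t : DT, t.depth ≤ bdP f I.param n ∧ (∀ h, (t.nx h).length ≤ n) ∧
      (randomP p).real {A | ¬ (t.eval A = true ↔ I.Sat (join A E))} ≤ (1 / 2) ^ (2 * n + 2) := by
  obtain ⟨ℓ₀, hℓ₀, hmin⟩ := Finset.exists_min_image (Finset.range (n + 1)) (mp p)
    ⟨0, Finset.mem_range.2 (Nat.succ_pos _)⟩
  rw [Finset.mem_range] at hℓ₀
  set c := mp p ℓ₀ with hc
  have hcle : ∀ z ∈ Sq n, c ≤ (p z.length : ℝ) ∧ c ≤ 1 - (p z.length : ℝ) := by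
    intro z hz
    rw [mem_Sq] at hz
    have h1 := hmin z.length (Finset.mem_range.2 (by omega))
    exact ⟨h1.trans (min_le_left _ _), h1.trans (min_le_right _ _)⟩
  obtain ⟨t, h1, h2, h3⟩ := tree p I.param (f I.param * (n + 1) * (2 * n + 2)) (Sq n)
    (mp_nonneg p ℓ₀) (mp_le_one p ℓ₀) hcle I.param le_rfl
    (List ℕ) (fun v A => (v.length = I.blocks.sum ∧ ∀ a ∈ v, a < I.labels.length) ∧
      I.atoms.map (I.atom (join A E) v) ∈ I.acc) (DD I)
    (fun v A A' h => by rw [atoms_loc I h])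
    (fun v z hz => mem_Sq.2 ((DD_len I hz).trans hn))
    (fun v _ => card_DD I v)
  refine ⟨t, h1, fun h => ?_, ?_⟩
  · rcases DT.nx_mem t h2 h with h4 | h4
    · rw [h4]
      simp
    · obtain ⟨v, hv⟩ := Set.mem_iUnion.1 h4
      exact (DD_len I (Finset.mem_coe.1 hv)).trans hn
  · refine le_trans (le_of_eq ?_) (h3.trans (errP (pow_le_one₀ (mp_nonneg p ℓ₀) (mp_le_one p ℓ₀)) ?_ _))
    · congr 1
      ext A
      show ¬ _ ↔ ¬ _
      rw [sat_one hI]
    · refine (hf I.param ℓ₀).trans ?_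
      push_cast
      refine mul_le_mul_of_nonneg_right ?_ (pow_nonneg (mp_nonneg p ℓ₀) _)
      refine mul_le_mul_of_nonneg_left ?_ (Nat.cast_nonneg _)
      have : (ℓ₀ : ℝ) ≤ n := by exact_mod_cast Nat.lt_succ_iff.1 hℓ₀
      linarith

theorem instP (p : ℕ → unitInterval) {f : ℕ → ℕ}
    (hf : ∀ w ℓ : ℕ, 1 ≤ (f w : ℝ) * (ℓ + 1) * mp p ℓ ^ w) (E : Oracle) (y : List Bool) :
    ∃ (t : DT) (Bad : Set Oracle),
    (randomP p).real Bad ≤ (1 / 2) ^ (2 * y.length + 2) ∧ (∀ h, (t.nx h).length ≤ y.length) ∧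
      ∀ I : Inst, (unpair y).2 = bits I → I.IsW 1 → (bits I).length ^ 2 ≤ y.length →
        t.depth ≤ bdP f I.param y.length ∧ ∀ A ∉ Bad, (t.eval A = true ↔ I.Sat (join A E)) := by
  by_cases H : ∃ I : Inst, (unpair y).2 = bits I ∧ I.IsW 1 ∧
      (bits I).length ^ 2 ≤ y.length
  · obtain ⟨I, h1, h2, h3⟩ := H
    obtain ⟨t, h4, h5, h6⟩ := one_instP p hf E h2 _ h3
    refine ⟨t, _, h6, h5, fun I' h1' _ _ => ?_⟩
    rw [h1] at h1'
    obtain rfl := bits_injective h1'
    exact ⟨h4, fun A hA => not_not.1 hA⟩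
  · refine ⟨DT.leaf false, ∅, ?_, fun h => ?_, fun I h1 h2 h3 => absurd ⟨I, h1, h2, h3⟩ H⟩
    · rw [measureReal_empty]
      positivity
    · cases h <;> simp [DT.nx]

/-- the factor in the bound -/
def faP (f : ℕ → ℕ) (w : ℕ) : ℕ := (∑ i ∈ Finset.range (w + 1), f i) * w ^ 2

theorem bdP_le (f : ℕ → ℕ) {w w' n : ℕ} (h : w ≤ w') :
    bdP f w n ≤ faP f w' * ((n + 1) * (2 * n + 2)) := by
  unfold bdP faP
  have h1 : f w ≤ ∑ i ∈ Finset.range (w' + 1), f i :=
    Finset.single_le_sum (f := f) (fun _ _ => Nat.zero_le _) (Finset.mem_range.2 (by omega))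
  have h2 : w ^ 2 ≤ w' ^ 2 := Nat.pow_le_pow_left h 2
  calc f w * (n + 1) * (2 * n + 2) * w ^ 2 = f w * w ^ 2 * ((n + 1) * (2 * n + 2)) := by ring
    _ ≤ _ := Nat.mul_le_mul_right _ (Nat.mul_le_mul h1 h2)

theorem computable_sumF {f : ℕ → ℕ} (hf : Computable f) :
    Computable (fun w => ∑ i ∈ Finset.range (w + 1), f i) := by
  have h : Computable (fun w : ℕ => Nat.rec (motive := fun _ => ℕ) (f 0)
      (fun i acc => acc + f (i + 1)) w) := by
    refine Computable.nat_rec (f := fun w : ℕ => w) (g := fun _ => f 0)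
      (h := fun _ q => q.2 + f (q.1 + 1)) Computable.id (Computable.const (f 0)) ?_
    exact (Primrec.nat_add.to_comp.comp (Computable.snd.comp Computable.snd)
      (hf.comp (Computable.succ.comp (Computable.fst.comp Computable.snd)))).to₂
  refine h.of_eq fun w => ?_
  induction w with
  | zero => simp
  | succ w ih =>
    rw [Finset.sum_range_succ, ← ih]

theorem computable_faP {f : ℕ → ℕ} (hf : Computable f) : Computable (faP f) := by
  have h2 : Computable (fun n : ℕ => n ^ 2) := by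
    have : Primrec (fun n : ℕ => n * n) := Primrec.nat_mul.comp Primrec.id Primrec.id
    exact (this.of_eq fun n => by ring).to_comp
  exact Primrec.nat_mul.to_comp.comp (computable_sumF hf) h2

/-- The argument of the simulation. -/
def xpP (z r : List Bool) : List Bool :=
  pairBits (List.replicate ((unpair (unpair z).1).1.length *
    (((yp r).length + 1) * (2 * (yp r).length + 2))) true) (yp r)

theorem poly_xpP {α : Type} [TEnc α] {z r : α → List Bool} (hz : NPC.Poly z) (hr : NPC.Poly r) :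
    NPC.Poly (fun a => xpP (z a) (r a)) := by
  have h1 : NPC.Poly (fun a => (unpair (unpair (z a)).1).1) :=
    (NPC.Poly.fst poly_unpair).comp ((NPC.Poly.fst poly_unpair).comp hz)
  have h2 : UPoly (fun a => (yp (r a)).length) := UPoly.length (poly_yp hr)
  have h3 : UPoly (fun a => (unpair (unpair (z a)).1).1.length *
      (((yp (r a)).length + 1) * (2 * (yp (r a)).length + 2))) :=
    (UPoly.length h1).mul ((h2.add (UPoly.const 1)).mul
      ((UPoly.mul (UPoly.const 2) h2).add (UPoly.const 2)))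
  exact Pool.Agent.H622R2.poly_pairBits (poly_rep h3 true) (poly_yp hr)

/-- a true sentence (`b = true`) or a false one -/
def triv (b : Bool) : Inst := ⟨[[]], [], [], [], if b then [[]] else []⟩

/-- (The proof is taken from `Pool.Agent.Y626.WC.inW_of_inFPT`.) -/
theorem inW_of_inFPT {t : ℕ} {A : Oracle} {α : Type} [TEnc α] {κ : α → ℕ} {P : α → Prop}
    (h : InFPT A κ P) : InW t A κ P := by
  classical
  obtain ⟨π, M, hπ, h⟩ := h
  have h0 : NPC.Poly (fun y : List Bool => decide (y = [true])) :=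
    NPC.Poly.decide_eq NPC.Poly.id (NPC.Poly.const [true])
  have h1 : NPC.Poly (fun y : List Bool => if y = [true] then bits (triv true) else
      bits (triv false)) :=
    NPC.Poly.ite h0 (NPC.Poly.const _) (NPC.Poly.const _)
  obtain ⟨M', hM'⟩ := IsFP.comp (IsFP.of_poly (A := A) h1) (isFP_total A M)
  refine ⟨π, fun _ => 0, fun a => triv (decide (P a)), M', hπ, Computable.const 0, fun a => ?_⟩
  obtain ⟨b, h2, h3⟩ := h a
  refine ⟨?_, ⟨⟨by simp [triv], by simp [triv]⟩, by simp [triv]⟩, by simp [triv, Inst.param], ?_⟩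
  · rw [hM']
    beta_reduce
    rw [h2, Option.getD_some]
    by_cases hP : P a
    · rw [if_pos (by rw [h3.1 hP]), decide_eq_true hP]
    · rw [if_neg, decide_eq_false hP]
      rw [List.cons.injEq]
      intro hb
      exact hP (h3.2 hb.1)
  · show P a ↔ _ ∈ (if decide (P a) then ([[]] : List (List Bool)) else [])
    by_cases hP : P a
    · simp [hP, triv]
    · simp [hP]

theorem dense (p : ℕ → unitInterval) {f : ℕ → ℕ} (hfc : Computable f)
    (hf : ∀ w ℓ : ℕ, 1 ≤ (f w : ℝ) * (ℓ + 1) * mp p ℓ ^ w) :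
    ∃ E : Oracle, ∀ᵐ A ∂randomP p, ∀ (α : Type) [TEnc α] (κ : α → ℕ)
    (P : α → Prop), InW 1 (join A E) κ P → InFPT (join A E) κ P := by
  classical
  choose T Bad hBad hlen hT using instP p hf
  set QQ : Oracle → List Bool → List Bool → List Bool → Prop := fun E y h v =>
    (v = [] ∧ (T (cut E (y.length + 1)) y).fv h = true) ∨
    (∃ t : ℕ, v = true :: t.bits ∧ t < ((T (cut E (y.length + 1)) y).nx h).length) ∨
    (∃ t : ℕ, v = false :: t.bits ∧ ((T (cut E (y.length + 1)) y).nx h).getD t false = true)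
    with hQQ
  obtain ⟨E, hEF⟩ := exists_self (fun u E => decide (∃ y h v : List Bool, u = ec y h v ∧
    QQ E y h v))
  have hE : ∀ y h v, E (ec y h v) = true ↔ QQ E y h v := by
    intro y h v
    rw [hEF, decide_eq_true_eq]
    have hcut : cut (cut E (ec y h v).length) (y.length + 1) = cut E (y.length + 1) :=
      cut_cut E (by rw [ec_length]; omega)
    have hq : QQ (cut E (ec y h v).length) y h v ↔ QQ E y h v := by
      simp only [hQQ, hcut]
    constructor
    · rintro ⟨y', h', v', h1, h2⟩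
      obtain ⟨rfl, rfl, rfl⟩ := ec_inj h1
      exact hq.1 h2
    · intro h1
      exact ⟨y, h, v, rfl, hq.2 h1⟩
  refine ⟨E, ?_⟩
  have hae : ∀ᵐ A ∂randomP p, {y | A ∈ Bad (cut E (y.length + 1)) y}.Finite :=
    bcP (randomP p) (fun y => Bad (cut E (y.length + 1)) y) (fun y => hBad _ y)
  filter_upwards [hae] with A hA α _ κ P hQ
  obtain ⟨π, g, R, M, hπ, hg, hR⟩ := hQ
  set O := join A E with hO
  set Z : List Bool → List Bool → List Bool := fun y h =>
    (T (cut E (y.length + 1)) y).nx h with hZ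
  set FV : List Bool → List Bool → Bool := fun y h =>
    (T (cut E (y.length + 1)) y).fv h with hFV
  have h1 : ∀ (y h : List Bool) (t : ℕ), E (ec y h (true :: t.bits)) =
      decide (t < (Z y h).length) := by
    intro y h t
    rw [Bool.eq_iff_iff, hE, decide_eq_true_eq]
    simp only [hQQ, hZ]
    constructor
    · rintro (⟨h1, -⟩ | ⟨t', h1, h2⟩ | ⟨t', h1, -⟩)
      · exact absurd h1 (by simp)
      · rw [List.cons.injEq] at h1
        rw [bits_inj' h1.2]
        exact h2
      · exact absurd h1 (by simp)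
    · intro h1
      exact Or.inr (Or.inl ⟨t, rfl, h1⟩)
  have h2 : ∀ (y h : List Bool) (t : ℕ), E (ec y h (false :: t.bits)) =
      (Z y h).getD t false := by
    intro y h t
    rw [Bool.eq_iff_iff, hE]
    simp only [hQQ, hZ]
    constructor
    · rintro (⟨h1, -⟩ | ⟨t', h1, -⟩ | ⟨t', h1, h2⟩)
      · exact absurd h1 (by simp)
      · exact absurd h1 (by simp)
      · rw [List.cons.injEq] at h1
        rw [bits_inj' h1.2]
        exact h2
    · intro h1
      exact Or.inr (Or.inr ⟨t, rfl, h1⟩)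
  have h3 : ∀ y h : List Bool, E (ec y h []) = FV y h := by
    intro y h
    rw [Bool.eq_iff_iff, hE, hFV]
    simp only [hQQ]
    constructor
    · rintro (⟨-, h1⟩ | ⟨t', h1, -⟩ | ⟨t', h1, -⟩)
      · exact h1
      · exact absurd h1 (by simp)
      · exact absurd h1 (by simp)
    · intro h1
      exact Or.inl ⟨trivial, h1⟩
  have h4 : ∀ y h : List Bool, (Z y h).length ≤ y.length := fun y h => hlen _ y h
  have hsim := isFP_sim (A := A) h1 h2 h3 h4
  rw [← hO] at hsim
  -- the reduction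
  set rr : List Bool → List Bool := fun z =>
    (M.out O (pairBits (unpair (unpair z).1).2 (unpair z).2)).getD [] with hrr
  have hrF : IsFP O rr := IsFP.comp (isFP_total O M) (IsFP.of_poly
    (Pool.Agent.H622R2.poly_pairBits
      ((NPC.Poly.snd poly_unpair).comp (NPC.Poly.fst poly_unpair)) (NPC.Poly.snd poly_unpair)))
  have hG : IsFP O (fun z => xpP z (rr z)) := by
    have h := IsFP.seq hrF hrF (φ := fun p => p.1) (ψ := fun p => xpP p.1 p.2.1)
      (NPC.Poly.fst NPC.Poly.id) (poly_xpP (NPC.Poly.fst NPC.Poly.id)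
        (NPC.Poly.fst (NPC.Poly.snd NPC.Poly.id)))
    exact h
  set EE : Finset (List Bool) := hA.toFinset with hEE
  set E' : Finset (List Bool) := EE.filter (fun y => ∃ I : Inst, (unpair y).2 = bits I ∧ I.Sat O)
    with hE'
  have hVF := IsFP.seq hG hsim (φ := fun p => p.2)
    (ψ := fun p => if (unpair p.2.1).2 ∈ EE.toList then [decide ((unpair p.2.1).2 ∈ E'.toList)]
      else p.2.2) (NPC.Poly.snd NPC.Poly.id) (by
      have hu : NPC.Poly (fun p : List Bool × List Bool × List Bool => (unpair p.2.1).2) :=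
        (NPC.Poly.snd poly_unpair).comp (NPC.Poly.fst (NPC.Poly.snd NPC.Poly.id))
      exact NPC.Poly.ite ((NPC.Poly.decide_mem hu (NPC.Poly.const EE.toList)).congr fun p => by
          congr)
        (NPC.Poly.cons ((NPC.Poly.decide_mem hu (NPC.Poly.const E'.toList)).congr fun p => by
          congr) (NPC.Poly.const []))
        (NPC.Poly.snd (NPC.Poly.snd NPC.Poly.id)))
  simp only [Finset.mem_toList] at hVF
  obtain ⟨M', hM'⟩ := hVF
  refine ⟨fun k => pairBits (List.replicate (faP f (g k)) true) (π k), M',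
    Pool.Agent.TH678.WP.computable_pairBits.comp
      (computable_replicate ((computable_faP hfc).comp hg)) hπ, fun a => ?_⟩
  obtain ⟨h5, h6, h7, h8⟩ := hR a
  set z := pairBits (pairBits (List.replicate (faP f (g (κ a))) true) (π (κ a))) (bits a) with hz
  have hrz : rr z = bits (R a) := by
    rw [hrr]
    dsimp only
    rw [hz, unpair_pairBits]
    dsimp only
    rw [unpair_pairBits]
    dsimp only
    rw [h5]
    rfl
  have hz1 : (unpair (unpair z).1).1 = List.replicate (faP f (g (κ a))) true := by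
    rw [hz, unpair_pairBits]
    dsimp only
    rw [unpair_pairBits]
  set y := yp (bits (R a)) with hy
  have hx : xpP z (rr z) = pairBits (List.replicate (faP f (g (κ a)) *
      ((y.length + 1) * (2 * y.length + 2))) true) y := by
    rw [hrz]
    unfold xpP
    rw [hz1, List.length_replicate]
  have hy2 : (unpair y).2 = bits (R a) := unpair_yp _
  rw [hM' z]
  beta_reduce
  rw [hx, unpair_pairBits]
  dsimp only
  by_cases hyE : y ∈ EE
  · rw [if_pos hyE]
    refine ⟨_, rfl, ?_⟩
    rw [decide_eq_true_eq, h8, hE', Finset.mem_filter]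
    constructor
    · intro h
      exact ⟨hyE, R a, hy2, h⟩
    · rintro ⟨-, I, h9, h10⟩
      rw [hy2] at h9
      rw [bits_injective h9]
      exact h10
  · rw [if_neg hyE]
    refine ⟨_, rfl, ?_⟩
    have hbad : A ∉ Bad (cut E (y.length + 1)) y := fun h => hyE (hA.mem_toFinset.2 h)
    obtain ⟨h9, h10⟩ := hT (cut E (y.length + 1)) y (R a) hy2 h6 (by
      rw [hy]
      exact yp_len _)
    set L := (pairBits (List.replicate (faP f (g (κ a)) *
      ((y.length + 1) * (2 * y.length + 2))) true) y).length with hL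
    have hdep : (T (cut E (y.length + 1)) y).depth ≤ (hist A Z y L).length := by
      rw [hist_length]
      refine h9.trans ((bdP_le f h7).trans ?_)
      rw [hL, length_pairBits, List.length_replicate]
      omega
    have h11 := DT.fv_eq (A := A) _ (hist A Z y L) hdep (fun n hn => hist_getElem A Z y L n hn)
    rw [h8, hFV]
    dsimp only
    rw [h11, h10 A hbad]
    exact (sat_cut h6 (by rw [hy]; exact yp_len _)).symm

end Pool.Agent.T6.H49.RO
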