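import Pool.Agent.T6.H49.RO.Num

/-!
# Sparse random oracles: `W[1]` is not contained in `M[1]`
-/

set_option autoImplicit false

namespace Pool.Agent.T6.H49.RO

open MeasureTheory Filter
open Pool.Agent.NPC Pool.Agent.H620R2.Gauge Pool.Agent.TH678.GC Pool.Agent.Y626.WG
open Pool.Agent.H628R3.RO (plant Loc measurableSet_of_loc)
open Pool.Agent.Y581.WN (Badm eval_mono' InM1n)

theorem ae_of_levels (μ : Measure Oracle) [IsProbabilityMeasure μ] (G : ℕ → Set Oracle) {n₀ : ℕ}
    (hGm : ∀ n ≥ n₀, MeasurableSet (G n))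
    (hloc : ∀ n ≥ n₀, ∃ L : ℕ, Loc {y | y.length ≤ L} (G n)) {δ : ℝ} (hδ : 0 < δ)
    (hlev : ∀ n ≥ n₀, ∀ K : Set Oracle, MeasurableSet K → Loc {y | y.length < n} K →
      μ.real (K ∩ G n) ≤ (1 - δ) * μ.real K) : ∀ᵐ A ∂μ, ∃ n ≥ n₀, A ∉ G n := by
  set K : ℕ → Set Oracle := fun m => {A | ∀ n, n₀ ≤ n → n < m → A ∈ G n} with hK
  have hKm : ∀ m, MeasurableSet (K m) := by
    intro m
    have : K m = ⋂ n ∈ Finset.Ico n₀ m, G n := by
      ext A
      simp only [hK, Set.mem_iInter, Finset.mem_Ico]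
      exact ⟨fun h n hn => h n hn.1 hn.2, fun h n h1 h2 => h n ⟨h1, h2⟩⟩
    rw [this]
    exact Finset.measurableSet_biInter _ fun n hn => hGm n (Finset.mem_Ico.1 hn).1
  have hanti : Antitone K := fun m m' hm A hA n h1 h2 => hA n h1 (h2.trans_le hm)
  have hKloc : ∀ m, ∃ L : ℕ, Loc {y | y.length ≤ L} (K m) := by
    intro m
    induction m with
    | zero => exact ⟨0, fun A A' _ => ⟨fun _ n _ h => absurd h (Nat.not_lt_zero _),
        fun _ n _ h => absurd h (Nat.not_lt_zero _)⟩⟩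
    | succ m ih =>
      obtain ⟨L, hL⟩ := ih
      by_cases hm : n₀ ≤ m
      · obtain ⟨L', hL'⟩ := hloc m hm
        refine ⟨max L L', fun A A' h => ?_⟩
        have h1 := hL A A' fun y hy => h y (show y.length ≤ max L L' from
          le_trans (show y.length ≤ L from hy) (le_max_left _ _))
        have h2 := hL' A A' fun y hy => h y (show y.length ≤ max L L' from
          le_trans (show y.length ≤ L' from hy) (le_max_right _ _))
        have e : ∀ B : Oracle, B ∈ K (m + 1) ↔ B ∈ K m ∧ B ∈ G m := by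
          intro B
          constructor
          · intro hB
            exact ⟨fun n h3 h4 => hB n h3 (by omega), hB m hm (by omega)⟩
          · rintro ⟨h3, h4⟩ n h5 h6
            rcases Nat.lt_succ_iff_lt_or_eq.1 h6 with h7 | rfl
            · exact h3 n h5 h7
            · exact h4
        rw [e, e, h1, h2]
      · refine ⟨L, fun A A' h => ?_⟩
        have e : ∀ B : Oracle, B ∈ K (m + 1) := fun B n h3 h4 => absurd h3 (by omega)
        exact ⟨fun _ => e _, fun _ => e _⟩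
  set B : Set Oracle := ⋂ m, K m with hB
  have hlim : Tendsto (fun m => μ.real (K m)) atTop (nhds (μ.real B)) := by
    have h := tendsto_measure_iInter_atTop (μ := μ) (s := K)
      (fun m => (hKm m).nullMeasurableSet) hanti ⟨0, measure_ne_top _ _⟩
    exact (ENNReal.tendsto_toReal (measure_ne_top _ _)).comp h
  have hstep : ∀ m, μ.real B ≤ (1 - δ) * μ.real (K m) := by
    intro m
    obtain ⟨L, hL⟩ := hKloc m
    have h1 := hlev (max (L + 1) n₀) (le_max_right _ _) (K m) (hKm m) fun A A' h =>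
      hL A A' fun y hy => h y (by
        have hy' : y.length ≤ L := hy
        have := le_max_left (L + 1) n₀
        show y.length < max (L + 1) n₀
        omega)
    refine le_trans (measureReal_mono ?_ (measure_ne_top _ _)) h1
    intro A hA
    rw [hB, Set.mem_iInter] at hA
    exact ⟨hA m, hA (max (L + 1) n₀ + 1) _ (le_max_right _ _) (Nat.lt_succ_self _)⟩
  have h0 : μ.real B ≤ (1 - δ) * μ.real B :=
    ge_of_tendsto' (hlim.const_mul (1 - δ)) hstep
  have hB0 : μ.real B = 0 := by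
    have : 0 ≤ μ.real B := measureReal_nonneg
    nlinarith
  have hB1 : μ B = 0 := (measureReal_eq_zero_iff (measure_ne_top μ B)).1 hB0
  rw [ae_iff]
  refine measure_mono_null ?_ hB1
  intro A hA
  have hA' : ¬ ∃ n ≥ n₀, A ∉ G n := hA
  push Not at hA'
  rw [hB, Set.mem_iInter]
  exact fun m n h1 _ => hA' n h1

/-- the requirement for one pair of algorithms -/
theorem ae_one (p : ℕ → unitInterval) (hpos : ∀ᶠ ℓ : ℕ in atTop, 0 < (p ℓ : ℝ)) {e : ℕ}
    (he : 1 ≤ e) (hup : ∀ᶠ ℓ : ℕ in atTop, (p ℓ : ℝ) ^ e * ℓ ≤ 1)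
    (hlow : ∀ d : ℕ, ∀ᶠ ℓ : ℕ in atTop, (-Real.log (p ℓ)) ^ d ≤ ℓ) (E : Oracle) (M N : Alg)
    (P : Polynomial ℕ) (σ : List Bool) (H c : ℕ) : ∀ᵐ A ∂randomP p,
    ∃ n ν : ℕ, A ∉ Gd E M N P σ H c (ins n (kk M) (3 * kk M * e) ν) := by
  obtain ⟨qN, hqN⟩ := N.out_local
  set k := kk M with hk
  have hk3 : k = 2 * pe M + 3 := hk
  obtain ⟨w, hw⟩ : ∃ w, w = 3 * k * e := ⟨_, rfl⟩
  set ρ' : Polynomial ℕ := (Polynomial.C H * (Polynomial.C 2 * Polynomial.X + 1)) ^ c with hρ'
  set F : Polynomial ℕ := qN.comp (2 * P.comp ρ' + 1 + ρ') with hF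
  obtain ⟨D, _, hD⟩ := Pool.Agent.H622R2.Exp.YAux.poly_bound F
  obtain ⟨n₁, h₁⟩ := eventually_atTop.1 (numbers p hpos he hup hlow (k := k) (by omega) (D + 1) hw)
  set n₀ := n₁ + 2 * σ.length + cst k w + 16 with hn₀
  have hchoice : ∀ n : ℕ, ∃ ν : ℕ, n₀ ≤ n → 0 < dens p n k w ∧
      8 * ((2 : ℝ) ^ (ν * k) * dens p n k w) ≤ 1 ∧
      1 ≤ 8 * (2 ^ k * ((2 : ℝ) ^ (ν * k) * dens p n k w)) ∧ n ^ 2 ≤ 2 ^ ν ∧
      (ν + 3) ^ (D + 1) ≤ n := by
    intro n
    by_cases hn : n₀ ≤ n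
    · obtain ⟨ν, hν⟩ := h₁ n (by omega)
      exact ⟨ν, fun _ => hν⟩
    · exact ⟨0, fun h => absurd h hn⟩
  choose ν hν using hchoice
  have hνn : ∀ n, n₀ ≤ n → ν n + 3 ≤ n := by
    intro n hn
    refine le_trans ?_ (hν n hn).2.2.2.2
    calc ν n + 3 = (ν n + 3) ^ 1 := (pow_one _).symm
      _ ≤ (ν n + 3) ^ (D + 1) := Nat.pow_le_pow_right (by omega) (by omega)
  have hmain := ae_of_levels (randomP p) (fun n => Gd E M N P σ H c (ins n k w (ν n)))
    (n₀ := n₀) (δ := 1 / (32 * 2 ^ k))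
    (fun n hn => measurable_Gd E M N P σ H c (by have := hνn n hn; omega) (by omega))
    (fun n hn => loc_Gd E M N P σ H c (by have := hνn n hn; omega) (by omega))
    (by positivity) (by
      intro n hn K hK hKloc
      obtain ⟨h2, h3, h4, h5, h6⟩ := hν n hn
      have h7 := hνn n hn
      have hsz : (pairBits σ (bits (ins n k w (ν n)))).length + 2 ≤ 2 ^ (2 * ν n) := by
        have h8 := sz_ins (n := n) (ν := ν n) (by omega) k w
        rw [length_pairBits]
        have h9 : 1 ≤ 2 ^ ν n := Nat.one_le_two_pow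
        have h10 : 2 * σ.length + 5 + cst k w + 4 * n ≤ n ^ 2 := by nlinarith
        have h11 : (2 : ℕ) ^ (2 * ν n) = 2 ^ ν n * 2 ^ ν n := by rw [← pow_add]; congr 1; ring
        have h12 : 2 ^ ν n * (2 * σ.length + 5 + cst k w + 4 * n) ≤ 2 ^ ν n * 2 ^ ν n :=
          Nat.mul_le_mul_left _ (h10.trans h5)
        have h13 : (2 * σ.length + 3 + cst k w) * 1 ≤ (2 * σ.length + 3 + cst k w) * 2 ^ ν n :=
          Nat.mul_le_mul_left _ h9
        rw [h11]
        have h14 : 2 ^ ν n * (2 * σ.length + 5 + cst k w + 4 * n) =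
          (2 * σ.length + 3 + cst k w) * 2 ^ ν n + 2 ^ ν n * (4 * n + 2) := by ring
        omega
      have hν1 : 1 ≤ ν n := by
        by_contra h
        have h0 : ν n = 0 := by omega
        rw [h0, pow_zero] at h5
        have : 16 ^ 2 ≤ n ^ 2 := Nat.pow_le_pow_left (by omega) 2
        omega
      refine one_level p E M N P σ H c (by omega) (by omega) ?_ h2 h3 h4 ?_ hK hKloc
      · -- the questions are short
        intro r u hr hu A
        obtain ⟨Q, _, h8, h9⟩ := hqN A (pairBits u r)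
        refine ⟨Q, fun q hq => (h8 q hq).trans ?_, h9⟩
        have hlog : Nat.log 2 (bits (ins n k w (ν n))).length ≤ 2 * ν n := by
          have h10 : (bits (ins n k w (ν n))).length ≤ 2 ^ (2 * ν n) := by
            rw [length_pairBits] at hsz
            omega
          have h11 := Nat.log_mono_right (b := 2) h10
          rw [Nat.log_pow (by norm_num)] at h11
          exact h11
        have h10 : r.length ≤ ρ'.eval (ν n) := by
          refine hr.trans ?_
          rw [hρ', Polynomial.eval_pow, Polynomial.eval_mul, Polynomial.eval_C,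
            Polynomial.eval_add, Polynomial.eval_one, Polynomial.eval_mul, Polynomial.eval_C,
            Polynomial.eval_X]
          exact Nat.pow_le_pow_left (Nat.mul_le_mul_left _ (Nat.add_le_add_right hlog _)) _
        have h11 : qN.eval (pairBits u r).length ≤ F.eval (ν n) := by
          rw [hF, Polynomial.eval_comp]
          refine eval_mono' _ ?_
          have h12 := hu.trans (eval_mono' P h10)
          rw [length_pairBits]
          simp only [Polynomial.eval_add, Polynomial.eval_mul, Polynomial.eval_ofNat,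
            Polynomial.eval_comp, Polynomial.eval_one]
          omega
        refine h11.trans ((hD _).trans (le_trans ?_ h6))
        calc (ν n + 2) ^ D ≤ (ν n + 3) ^ D := Nat.pow_le_pow_left (by omega) _
          _ ≤ (ν n + 3) ^ (D + 1) := Nat.pow_le_pow_right (by omega) (by omega)
      · -- few questions
        have h8 : M.p.eval (pairBits σ (bits (ins n k w (ν n)))).length ≤
            2 ^ (2 * ν n * pe M) := by
          refine (pe_spec M _).trans ?_
          rw [pow_mul]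
          exact Nat.pow_le_pow_left hsz _
        have h9 : (2 : ℕ) ^ (ν n * k) = 2 ^ (2 * ν n * pe M) * 2 ^ (3 * ν n) := by
          rw [← pow_add, hk3]
          congr 1
          ring
        have h10 : 4 ≤ (2 : ℕ) ^ (3 * ν n) := by
          calc 4 = 2 ^ 2 := by norm_num
            _ ≤ _ := Nat.pow_le_pow_right (by norm_num) (by omega)
        rw [h9, mul_comm]
        exact Nat.mul_le_mul h8 h10)
  filter_upwards [hmain] with A hA
  obtain ⟨n, _, hn⟩ := hA
  exact ⟨n, ν n, by rw [← hw]; exact hn⟩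

/-- **Sparse random oracles.** -/
theorem sparse (p : ℕ → unitInterval) (hpos : ∀ᶠ ℓ : ℕ in atTop, 0 < (p ℓ : ℝ))
    (hup : ∃ e : ℕ, ∀ᶠ ℓ : ℕ in atTop, (p ℓ : ℝ) ^ e * ℓ ≤ 1)
    (hlow : ∀ d : ℕ, ∀ᶠ ℓ : ℕ in atTop, (-Real.log (p ℓ)) ^ d ≤ ℓ) (E : Oracle) :
    ∀ᵐ A ∂randomP p, ¬ InM1n (join A E) (fun I : WInst 1 => I.1.param)
      (fun I => I.1.Sat (join A E)) := by
  obtain ⟨e₀, he₀⟩ := hup
  have hup' : ∀ᶠ ℓ : ℕ in atTop, (p ℓ : ℝ) ^ (e₀ + 1) * ℓ ≤ 1 := by
    filter_upwards [he₀] with ℓ hℓ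
    have h1 : (p ℓ : ℝ) ^ (e₀ + 1) ≤ (p ℓ : ℝ) ^ e₀ :=
      pow_le_pow_of_le_one (p ℓ).2.1 (p ℓ).2.2 (Nat.le_succ _)
    exact (mul_le_mul_of_nonneg_right h1 (Nat.cast_nonneg _)).trans hℓ
  have hcn := CC.poly_countable
  have hc2 : Countable Alg := Alg.countable
  have hall : ∀ᵐ A ∂randomP p, ∀ j : Alg × Alg × Polynomial ℕ × List Bool × ℕ × ℕ,
      ∃ n ν : ℕ, A ∉ Gd E j.1 j.2.1 j.2.2.1 j.2.2.2.1 j.2.2.2.2.1 j.2.2.2.2.2
        (ins n (kk j.1) (3 * kk j.1 * (e₀ + 1)) ν) := by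
    rw [ae_all_iff]
    intro j
    exact ae_one p hpos (Nat.le_add_left 1 e₀) hup' hlow E _ _ _ _ _ _
  filter_upwards [hall] with A hA
  rintro ⟨π, h, c, M, r, L, ⟨V, P, ⟨N, hN⟩, hL⟩, hr⟩
  set k := kk M with hk
  set par := (ins 0 k (3 * k * (e₀ + 1)) 0).param with hpar
  obtain ⟨n, ν, hbad⟩ := hA (M, N, P, π par, h par, c)
  dsimp only at hbad
  rw [← hk] at hbad
  set x : WInst 1 := ⟨ins n k (3 * k * (e₀ + 1)) ν, ins_isW _ _ _ _⟩ with hx
  have h1 := hr x
  have e1 : (fun I : WInst 1 => I.1.param) x = par := rfl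
  rw [e1] at h1
  refine hbad (mem_Gd.2 ⟨r x, h1.1, h1.2.1, ?_⟩)
  refine h1.2.2.trans ?_
  rw [hL]
  refine exists_congr fun u => and_congr_right fun _ => ?_
  rw [hN, Option.some.injEq]

end Pool.Agent.T6.H49.RO
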