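import Pool.Agent.H628R3.RO.M1

/-!
# Random oracles with an arbitrary density
-/

set_option autoImplicit false

namespace Pool.Agent.T6.H49.RO

open MeasureTheory
open Pool.Agent.H628R3.RO (Oracle)

/-- The coin which shows `true` with probability `q`. -/
noncomputable def coinP (q : unitInterval) : Measure Bool :=
  ENNReal.ofReal q • Measure.dirac true + ENNReal.ofReal (1 - q) • Measure.dirac false

instance (q : unitInterval) : IsProbabilityMeasure (coinP q) := ⟨by
  have h1 : (0 : ℝ) ≤ q := q.2.1
  have h2 : (0 : ℝ) ≤ 1 - q := by linarith [q.2.2]
  simp only [coinP, Measure.add_apply, Measure.smul_apply, measure_univ, smul_eq_mul, mul_one]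
  rw [← ENNReal.ofReal_add h1 h2]
  simp⟩

/-- The distribution of a random oracle with the density `p`: every string `z` is put into the
oracle with probability `p |z|`, independently of the other strings. -/
noncomputable def randomP (p : ℕ → unitInterval) : Measure Oracle :=
  Measure.infinitePi (fun z : List Bool => coinP (p z.length))

end Pool.Agent.T6.H49.RO
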