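import Pool.Agent.T6.H49.RO.Meas

/-!
# One level: a random oracle spoils an algorithm which asks few questions
-/

set_option autoImplicit false

namespace Pool.Agent.T6.H49.RO

open MeasureTheory
open Pool.Agent.H628R3.RO (Oracle Loc measurableSet_of_loc measurable_upd plant plant_insert)

variable {ι : Type}

/-- the strings of `J` are in the oracle -/
def HitJ (J : Finset (List Bool)) : Set Oracle := {A | ∀ x ∈ J, A x = true}

theorem measurable_hitJ (J : Finset (List Bool)) : MeasurableSet (HitJ J) := by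
  refine measurableSet_of_loc (K := (J : Set (List Bool))) J.finite_toSet ?_
  intro A A' h
  show (∀ y ∈ J, A y = true) ↔ ∀ y ∈ J, A' y = true
  refine forall₂_congr fun y hy => ?_
  rw [h y hy]

theorem plant_mem_hitJ {J J' : Finset (List Bool)} (h : Disjoint J J') (A : Oracle) :
    plant J A ∈ HitJ J' ↔ A ∈ HitJ J' := by
  show (∀ y ∈ J', plant J A y = true) ↔ ∀ y ∈ J', A y = true
  refine forall₂_congr fun y hy => ?_
  have : y ∉ J := fun hy' => (Finset.disjoint_left.1 h) hy' hy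
  rw [plant, if_neg this]

open Classical in
/-- **One level.** If `K` does not depend on the strings of the blocks `J v`, and `G` is an event such
that only few plantings into an oracle in `G` without hits give an oracle in `G`, then a part of `K`
is not in `G`. -/
theorem level (p : ℕ → unitInterval) (V : Finset ι) (J : ι → Finset (List Bool))
    (hdis : (V : Set ι).PairwiseDisjoint J) {ρ : ℝ} (hρ : 0 < ρ)
    (hJ : ∀ v ∈ V, ∏ x ∈ J v, (p x.length : ℝ) = ρ) {K G : Set Oracle} (hK : MeasurableSet K)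
    (hG : MeasurableSet G) (hinv : ∀ v ∈ V, ∀ A, plant (J v) A ∈ K ↔ A ∈ K) {q : ℝ}
    (hq0 : 0 ≤ q)
    (hq : ∀ A ∈ G, (∀ v ∈ V, A ∉ HitJ (J v)) →
      (((V.filter fun v => plant (J v) A ∈ G).card : ℕ) : ℝ) ≤ q)
    (hq4 : q ≤ V.card / 4) (hlam : V.card * ρ ≤ 1 / 8) :
    (randomP p).real (K ∩ G) ≤ (1 - V.card * ρ / 4) * (randomP p).real K := by
  set μ := randomP p with hμ
  set lam : ℝ := V.card * ρ with hlamdef
  set m : ℝ := μ.real K with hm
  set b : ℝ := μ.real (K ∩ Gᶜ) with hb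
  have hm0 : 0 ≤ m := measureReal_nonneg
  have hb0 : 0 ≤ b := measureReal_nonneg
  have hV0 : (0 : ℝ) ≤ V.card := Nat.cast_nonneg _
  have hlam0 : 0 ≤ lam := mul_nonneg hV0 hρ.le
  have hGc : MeasurableSet Gᶜ := hG.compl
  -- a hit
  have hit1 : ∀ v ∈ V, μ.real (HitJ (J v) ∩ K) = ρ * m := by
    intro v hv
    have h := prob_plant p hK (J v)
    rw [hJ v hv] at h
    have h2 : plant (J v) ⁻¹' K = K := by
      ext A
      exact hinv v hv A
    rw [h2] at h
    exact h
  have hit2 : ∀ v ∈ V, ∀ v' ∈ V, v ≠ v' →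
      μ.real (HitJ (J v) ∩ (HitJ (J v') ∩ K)) = ρ ^ 2 * m := by
    intro v hv v' hv' hne
    have h := prob_plant p ((measurable_hitJ (J v')).inter hK) (J v)
    rw [hJ v hv] at h
    have h2 : plant (J v) ⁻¹' (HitJ (J v') ∩ K) = HitJ (J v') ∩ K := by
      ext A
      show (_ ∧ _) ↔ (_ ∧ _)
      rw [hinv v hv A, plant_mem_hitJ (hdis hv hv' hne)]
    rw [h2, hit1 v' hv'] at h
    rw [show HitJ (J v) = {A | ∀ x ∈ J v, A x = true} from rfl, h]
    ring
  -- no hit
  set F : Set Oracle := {A | ∃ v ∈ V, A ∈ HitJ (J v)} with hF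
  have hFm : MeasurableSet F := by
    have : F = ⋃ v ∈ V, HitJ (J v) := by
      ext A
      simp [hF]
    rw [this]
    exact Finset.measurableSet_biUnion _ fun v _ => measurable_hitJ _
  have hKF : μ.real (K ∩ F) ≤ lam * m := by
    have h1 : K ∩ F ⊆ ⋃ v ∈ V, HitJ (J v) ∩ K := by
      rintro A ⟨h1, v, hv, h2⟩
      simp only [Set.mem_iUnion]
      exact ⟨v, hv, h2, h1⟩
    refine (measureReal_mono h1 (measure_ne_top _ _)).trans ?_
    refine (measureReal_biUnion_finset_le _ _).trans ?_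
    rw [Finset.sum_congr rfl hit1, Finset.sum_const, nsmul_eq_mul]
    rw [hlamdef]
    exact le_of_eq (by ring)
  set X : Set Oracle := K ∩ G ∩ Fᶜ with hX
  have hXm : MeasurableSet X := (hK.inter hG).inter hFm.compl
  have hXl : m * (1 - lam) - b ≤ μ.real X := by
    have h1 : K ⊆ (K ∩ F) ∪ (K ∩ Gᶜ) ∪ X := by
      intro A hA
      by_cases h2 : A ∈ F
      · exact Or.inl (Or.inl ⟨hA, h2⟩)
      · by_cases h3 : A ∈ G
        · exact Or.inr ⟨⟨hA, h3⟩, h2⟩
        · exact Or.inl (Or.inr ⟨hA, h3⟩)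
    have h2 : m ≤ μ.real (K ∩ F) + b + μ.real X := by
      refine (measureReal_mono h1 (measure_ne_top _ _)).trans ?_
      refine (measureReal_union_le _ _).trans ?_
      exact add_le_add (measureReal_union_le _ _) le_rfl
    linarith
  -- the two kinds of plantings
  have hsplit : ∀ v ∈ V, μ.real X ≤ μ.real (X ∩ plant (J v) ⁻¹' G) +
      μ.real (plant (J v) ⁻¹' (K ∩ Gᶜ)) := by
    intro v hv
    have h1 : X ⊆ (X ∩ plant (J v) ⁻¹' G) ∪ plant (J v) ⁻¹' (K ∩ Gᶜ) := by
      intro A hA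
      by_cases h2 : plant (J v) A ∈ G
      · exact Or.inl ⟨hA, h2⟩
      · exact Or.inr ⟨(hinv v hv A).2 hA.1.1, h2⟩
    exact (measureReal_mono h1 (measure_ne_top _ _)).trans (measureReal_union_le _ _)
  have hfirst : ∑ v ∈ V, μ.real (X ∩ plant (J v) ⁻¹' G) ≤ q * m := by
    refine (sum_le μ V X (fun v => X ∩ plant (J v) ⁻¹' G) hXm
      (fun v _ => hXm.inter (measurable_plant _ hG)) q fun A => ?_).trans
      (mul_le_mul_of_nonneg_left (measureReal_mono (fun A hA => hA.1.1) (measure_ne_top _ _)) hq0)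
    by_cases hA : A ∈ X
    · rw [Set.indicator_of_mem hA]
      refine le_trans ?_ (hq A hA.1.2 fun v hv h => hA.2 ⟨v, hv, h⟩)
      refine Nat.cast_le.2 (Finset.card_le_card fun v hv => ?_)
      rw [Finset.mem_filter] at hv ⊢
      exact ⟨hv.1, hv.2.2⟩
    · rw [Set.indicator_of_notMem hA]
      have : (V.filter fun v => A ∈ X ∩ plant (J v) ⁻¹' G) = ∅ := by
        rw [Finset.filter_eq_empty_iff]
        intro v _ h
        exact hA h.1
      rw [this]
      simp
  have hsecond : ρ * ∑ v ∈ V, μ.real (plant (J v) ⁻¹' (K ∩ Gᶜ)) ≤ b + lam ^ 2 * m := by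
    have h1 : ∀ v ∈ V, ρ * μ.real (plant (J v) ⁻¹' (K ∩ Gᶜ)) =
        μ.real (HitJ (J v) ∩ (K ∩ Gᶜ)) := by
      intro v hv
      have h := prob_plant p (hK.inter hGc) (J v)
      rw [hJ v hv] at h
      exact h.symm
    rw [Finset.mul_sum, Finset.sum_congr rfl h1]
    -- only one hit, or another one
    have h2 : ∀ v ∈ V, μ.real (HitJ (J v) ∩ (K ∩ Gᶜ)) ≤
        μ.real ((K ∩ Gᶜ) ∩ (HitJ (J v) ∩ {A | ∀ v' ∈ V, A ∈ HitJ (J v') → v' = v})) +
        ∑ v' ∈ V.erase v, μ.real (HitJ (J v) ∩ (HitJ (J v') ∩ K)) := by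
      intro v hv
      have h3 : HitJ (J v) ∩ (K ∩ Gᶜ) ⊆
          ((K ∩ Gᶜ) ∩ (HitJ (J v) ∩ {A | ∀ v' ∈ V, A ∈ HitJ (J v') → v' = v})) ∪
          ⋃ v' ∈ V.erase v, HitJ (J v) ∩ (HitJ (J v') ∩ K) := by
        rintro A ⟨h4, h5⟩
        by_cases h6 : ∀ v' ∈ V, A ∈ HitJ (J v') → v' = v
        · exact Or.inl ⟨h5, h4, h6⟩
        · push Not at h6
          obtain ⟨v', h7, h8, h9⟩ := h6
          refine Or.inr ?_
          simp only [Set.mem_iUnion]
          exact ⟨v', Finset.mem_erase.2 ⟨h9, h7⟩, h4, h8, h5.1⟩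
      refine (measureReal_mono h3 (measure_ne_top _ _)).trans ?_
      refine (measureReal_union_le _ _).trans ?_
      exact add_le_add le_rfl (measureReal_biUnion_finset_le _ _)
    refine (Finset.sum_le_sum h2).trans ?_
    rw [Finset.sum_add_distrib]
    have hE : ∀ v ∈ V, MeasurableSet {A : Oracle | ∀ v' ∈ V, A ∈ HitJ (J v') → v' = v} := by
      intro v _
      have : {A : Oracle | ∀ v' ∈ V, A ∈ HitJ (J v') → v' = v} =
          ⋂ v' ∈ V, ((HitJ (J v'))ᶜ ∪ {A | v' = v}) := by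
        ext A
        simp only [Set.mem_iInter, Set.mem_union, Set.mem_compl_iff]
        show (∀ v' ∈ V, _ → _) ↔ _
        refine forall₂_congr fun v' _ => ?_
        show _ ↔ (_ ∨ v' = v)
        tauto
      rw [this]
      exact Finset.measurableSet_biInter _ fun v' _ =>
        (measurable_hitJ _).compl.union (MeasurableSet.const _)
    have h4 : ∑ v ∈ V, μ.real ((K ∩ Gᶜ) ∩
        (HitJ (J v) ∩ {A | ∀ v' ∈ V, A ∈ HitJ (J v') → v' = v})) ≤ 1 * b := by
      refine sum_le μ V (K ∩ Gᶜ) (fun v => (K ∩ Gᶜ) ∩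
        (HitJ (J v) ∩ {A | ∀ v' ∈ V, A ∈ HitJ (J v') → v' = v})) (hK.inter hGc)
        (fun v hv => (hK.inter hGc).inter ((measurable_hitJ _).inter (hE v hv))) 1 fun A => ?_
      by_cases hA : A ∈ K ∩ Gᶜ
      · rw [Set.indicator_of_mem hA]
        have : (V.filter fun v => A ∈ (K ∩ Gᶜ) ∩
            (HitJ (J v) ∩ {A | ∀ v' ∈ V, A ∈ HitJ (J v') → v' = v})).card ≤ 1 := by
          rw [Finset.card_le_one]
          intro v hv v' hv'
          rw [Finset.mem_filter] at hv hv'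
          exact hv'.2.2.2 v hv.1 hv.2.2.1
        exact_mod_cast this
      · rw [Set.indicator_of_notMem hA]
        have : (V.filter fun v => A ∈ (K ∩ Gᶜ) ∩
            (HitJ (J v) ∩ {A | ∀ v' ∈ V, A ∈ HitJ (J v') → v' = v})) = ∅ := by
          rw [Finset.filter_eq_empty_iff]
          intro v _ h
          exact hA h.1
        rw [this]
        simp
    have h5 : ∑ v ∈ V, ∑ v' ∈ V.erase v, μ.real (HitJ (J v) ∩ (HitJ (J v') ∩ K)) ≤
        lam ^ 2 * m := by
      have h6 : ∀ v ∈ V, ∑ v' ∈ V.erase v, μ.real (HitJ (J v) ∩ (HitJ (J v') ∩ K)) ≤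
          V.card * (ρ ^ 2 * m) := by
        intro v hv
        have h7 : ∀ v' ∈ V.erase v, μ.real (HitJ (J v) ∩ (HitJ (J v') ∩ K)) = ρ ^ 2 * m := by
          intro v' hv'
          rw [Finset.mem_erase] at hv'
          exact hit2 v hv v' hv'.2 (Ne.symm hv'.1)
        rw [Finset.sum_congr rfl h7, Finset.sum_const, nsmul_eq_mul]
        refine mul_le_mul_of_nonneg_right ?_ (by positivity)
        exact_mod_cast Finset.card_le_card (Finset.erase_subset _ _)
      refine (Finset.sum_le_sum h6).trans ?_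
      rw [Finset.sum_const, nsmul_eq_mul, hlamdef]
      exact le_of_eq (by ring)
    linarith
  -- the sum
  have hsum : V.card * μ.real X ≤ q * m + ∑ v ∈ V, μ.real (plant (J v) ⁻¹' (K ∩ Gᶜ)) := by
    have h1 := Finset.sum_le_sum hsplit
    rw [Finset.sum_const, nsmul_eq_mul, Finset.sum_add_distrib] at h1
    linarith
  have h1 : lam * μ.real X ≤ ρ * q * m + (b + lam ^ 2 * m) := by
    have h2 := mul_le_mul_of_nonneg_left hsum hρ.le
    rw [mul_add] at h2
    have e : ρ * (V.card * μ.real X) = lam * μ.real X := by rw [hlamdef]; ring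
    rw [e] at h2
    linarith
  have h2 : ρ * q ≤ lam / 4 := by
    have := mul_le_mul_of_nonneg_left hq4 hρ.le
    rw [hlamdef]
    linarith
  have h3 : μ.real (K ∩ G) = m - b := by
    have h4 := measureReal_inter_add_sdiff (μ := μ) (s := K) hG
    have h5 : K \ G = K ∩ Gᶜ := rfl
    rw [h5] at h4
    linarith
  rw [h3]
  have h4 : lam * (m * (1 - lam) - b) ≤ lam * μ.real X := mul_le_mul_of_nonneg_left hXl hlam0
  have h5 : ρ * q * m ≤ lam / 4 * m := mul_le_mul_of_nonneg_right h2 hm0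
  -- `lam m (3/4 - 2 lam) ≤ b (1 + lam)`
  have h6 : lam * m * (3 / 4 - 2 * lam) ≤ b * (1 + lam) := by nlinarith
  have h7 : lam * m * (1 / 2) ≤ lam * m * (3 / 4 - 2 * lam) :=
    mul_le_mul_of_nonneg_left (by linarith) (mul_nonneg hlam0 hm0)
  have h8 : b * (1 + lam) ≤ b * (9 / 8) := mul_le_mul_of_nonneg_left (by linarith) hb0
  have h9 : 0 ≤ lam * m := mul_nonneg hlam0 hm0
  nlinarith

end Pool.Agent.T6.H49.RO
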