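import Pool.Agent.Y626.WC.Core
import Pool.Agent.T6.H49.RO.Level

/-!
# The hard instances for sparse random oracles
-/

set_option autoImplicit false

namespace Pool.Agent.T6.H49.RO

open Pool.Agent.NPC Pool.Agent.H620R2.Gauge Pool.Agent.TH678.GC Pool.Agent.Y626.WG
open Pool.Agent.Y626.WC (sat_one)
open Pool.Agent.H628R3.RO (plant)

/-- the label of the element `i`, a string of length `n` -/
def lb (n ν i : ℕ) : List Bool := false :: (List.replicate (n - 1 - ν) true ++ bitsOf ν i)

theorem length_lb {n ν : ℕ} (h : ν + 1 ≤ n) (i : ℕ) : (lb n ν i).length = n := by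
  unfold lb
  rw [List.length_cons, List.length_append, List.length_replicate, length_bitsOf]
  omega

theorem lb_inj {n ν i i' : ℕ} (hi : i < 2 ^ ν) (hi' : i' < 2 ^ ν) (h : lb n ν i = lb n ν i') :
    i = i' := by
  unfold lb at h
  have h1 := (List.cons.inj h).2
  exact bitsOf_inj hi hi' (List.append_cancel_left h1)

/-- the hard instance -/
def ins (n k w ν : ℕ) : Inst where
  labels := (List.range (2 ^ ν)).map (lb n ν)
  rels := []
  blocks := [k]
  atoms := (List.range w).map fun j => (0, List.range k ++ List.replicate j 0)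
  acc := [List.replicate w true]

theorem ins_isW (n k w ν : ℕ) : (ins n k w ν).IsW 1 := by
  refine ⟨⟨?_, ?_⟩, ?_⟩
  · show (List.range (2 ^ ν)).map (lb n ν) ≠ []
    intro h
    have h1 := congrArg List.length h
    rw [List.length_map, List.length_range, List.length_nil] at h1
    have : 0 < 2 ^ ν := by positivity
    omega
  · show [k].length ≤ 1
    simp
  · intro s hs
    exact absurd hs (by show s ∉ ([k] : List ℕ).tail; simp)

theorem ins_param (n k w ν : ℕ) : (ins n k w ν).param = (ins 0 k w 0).param := rfl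

/-- the question for the tuple `v` and the number `j` -/
def fq (n ν : ℕ) (v : List ℕ) (j : ℕ) : List Bool :=
  (v ++ List.replicate j (v.getD 0 0)).flatMap (lb n ν)

/-- the question to the first oracle -/
def zq (n ν : ℕ) (v : List ℕ) (j : ℕ) : List Bool := (fq n ν v j).tail

theorem length_flat {n ν : ℕ} (h : ν + 1 ≤ n) (v : List ℕ) :
    (v.flatMap (lb n ν)).length = v.length * n := by
  induction v with
  | nil => simp
  | cons a v ih =>
    rw [List.flatMap_cons, List.length_append, length_lb h, ih, List.length_cons]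
    ring

theorem flat_inj {n ν : ℕ} (h : ν + 1 ≤ n) : ∀ {v v' : List ℕ}, (∀ a ∈ v, a < 2 ^ ν) →
    (∀ a ∈ v', a < 2 ^ ν) → v.length = v'.length →
    v.flatMap (lb n ν) = v'.flatMap (lb n ν) → v = v'
  | [], [], _, _, _, _ => rfl
  | [], _ :: _, _, _, h1, _ => absurd h1 (by simp)
  | _ :: _, [], _, _, h1, _ => absurd h1 (by simp)
  | a :: v, a' :: v', hv, hv', hl, he => by
    rw [List.flatMap_cons, List.flatMap_cons] at he
    obtain ⟨h1, h2⟩ := List.append_inj he (by rw [length_lb h, length_lb h])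
    rw [lb_inj (hv a (List.mem_cons_self ..)) (hv' a' (List.mem_cons_self ..)) h1,
      flat_inj h (fun b hb => hv b (List.mem_cons_of_mem _ hb))
        (fun b hb => hv' b (List.mem_cons_of_mem _ hb)) (by simpa using hl) h2]

theorem length_fq {n ν : ℕ} (h : ν + 1 ≤ n) (v : List ℕ) (j : ℕ) :
    (fq n ν v j).length = (v.length + j) * n := by
  unfold fq
  rw [length_flat h, List.length_append, List.length_replicate]

theorem length_zq {n ν : ℕ} (h : ν + 1 ≤ n) (v : List ℕ) (j : ℕ) :
    (zq n ν v j).length = (v.length + j) * n - 1 := by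
  unfold zq
  rw [List.length_tail, length_fq h]

theorem fq_eq (n ν : ℕ) {v : List ℕ} (hv : v ≠ []) (j : ℕ) : fq n ν v j = false :: zq n ν v j := by
  obtain ⟨a, v, rfl⟩ := List.exists_cons_of_ne_nil hv
  unfold zq fq
  rw [List.cons_append, List.flatMap_cons]
  unfold lb
  rfl

theorem getD_lt {ν : ℕ} {v : List ℕ} (hv : ∀ a ∈ v, a < 2 ^ ν) : v.getD 0 0 < 2 ^ ν := by
  rw [List.getD_eq_getElem?_getD]
  rcases h : v[0]? with _ | a
  · simp
  · rw [Option.getD_some]
    exact hv a (List.mem_of_getElem? h)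

theorem zq_inj {n ν : ℕ} (h : ν + 1 ≤ n) {v v' : List ℕ} (hv : ∀ a ∈ v, a < 2 ^ ν)
    (hv' : ∀ a ∈ v', a < 2 ^ ν) (hl : v.length = v'.length) (hne : v ≠ []) {j j' : ℕ}
    (he : zq n ν v j = zq n ν v' j') : v = v' ∧ j = j' := by
  have hne' : v' ≠ [] := by
    rintro rfl
    exact hne (List.eq_nil_of_length_eq_zero (by simpa using hl))
  have h0 : fq n ν v j = fq n ν v' j' := by rw [fq_eq n ν hne, fq_eq n ν hne', he]
  have h1 := congrArg List.length h0
  rw [length_fq h, length_fq h, hl] at h1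
  have hj : j = j' := by
    have := Nat.eq_of_mul_eq_mul_right (by omega) h1
    omega
  subst hj
  have h2 := flat_inj h (v := v ++ List.replicate j (v.getD 0 0))
    (v' := v' ++ List.replicate j (v'.getD 0 0)) (by
      intro a ha
      rcases List.mem_append.1 ha with ha | ha
      · exact hv a ha
      · rw [List.eq_of_mem_replicate ha]
        exact getD_lt hv) (by
      intro a ha
      rcases List.mem_append.1 ha with ha | ha
      · exact hv' a ha
      · rw [List.eq_of_mem_replicate ha]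
        exact getD_lt hv') (by simp [hl]) h0
  exact ⟨(List.append_inj h2 hl).1, rfl⟩

/-- the tuple as a list -/
def tl' {k N : ℕ} (v : Fin k → Fin N) : List ℕ := List.ofFn fun i => (v i : ℕ)

theorem length_tl' {k N : ℕ} (v : Fin k → Fin N) : (tl' v).length = k := by
  unfold tl'
  rw [List.length_ofFn]

theorem tl'_lt {k N : ℕ} (v : Fin k → Fin N) : ∀ a ∈ tl' v, a < N := by
  intro a ha
  unfold tl' at ha
  rw [List.mem_ofFn] at ha
  obtain ⟨i, rfl⟩ := ha
  exact (v i).2

theorem tl'_inj {k N : ℕ} {v v' : Fin k → Fin N} (h : tl' v = tl' v') : v = v' := by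
  unfold tl' at h
  have h1 := List.ofFn_injective h
  funext i
  exact Fin.ext (congrFun h1 i)

theorem exists_tl' {k N : ℕ} {l : List ℕ} (hl : l.length = k) (hlt : ∀ a ∈ l, a < N) :
    ∃ v : Fin k → Fin N, tl' v = l := by
  subst hl
  refine ⟨fun i => ⟨l.get i, hlt _ (List.get_mem l i)⟩, ?_⟩
  unfold tl'
  exact List.ofFn_get l

/-- the block of a tuple -/
def JJ (n k w ν : ℕ) (v : Fin k → Fin (2 ^ ν)) : Finset (List Bool) :=
  (Finset.range w).image (zq n ν (tl' v))

theorem mem_JJ {n k w ν : ℕ} {v : Fin k → Fin (2 ^ ν)} {x : List Bool} :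
    x ∈ JJ n k w ν v ↔ ∃ j < w, zq n ν (tl' v) j = x := by
  unfold JJ
  rw [Finset.mem_image]
  simp [Finset.mem_range]

theorem JJ_len {n k w ν : ℕ} (h : ν + 1 ≤ n) {v : Fin k → Fin (2 ^ ν)} {x : List Bool}
    (hx : x ∈ JJ n k w ν v) : ∃ j < w, x.length = (k + j) * n - 1 := by
  obtain ⟨j, hj, rfl⟩ := mem_JJ.1 hx
  exact ⟨j, hj, by rw [length_zq h, length_tl']⟩

theorem tl'_ne {k N : ℕ} (hk : 1 ≤ k) (v : Fin k → Fin N) : tl' v ≠ [] := by
  intro h
  have := congrArg List.length h
  rw [length_tl'] at this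
  simp at this
  omega

theorem JJ_disjoint {n k w ν : ℕ} (h : ν + 1 ≤ n) (hk : 1 ≤ k) {v v' : Fin k → Fin (2 ^ ν)}
    (hne : v ≠ v') : Disjoint (JJ n k w ν v) (JJ n k w ν v') := by
  rw [Finset.disjoint_left]
  intro x hx hx'
  obtain ⟨j, _, h1⟩ := mem_JJ.1 hx
  obtain ⟨j', _, h2⟩ := mem_JJ.1 hx'
  exact hne (tl'_inj (zq_inj h (tl'_lt v) (tl'_lt v') (by rw [length_tl', length_tl'])
    (tl'_ne hk v) (h1.trans h2.symm)).1)

theorem JJ_prod {n k w ν : ℕ} (h : ν + 1 ≤ n) (hk : 1 ≤ k) (p : ℕ → ℝ)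
    (v : Fin k → Fin (2 ^ ν)) :
    ∏ x ∈ JJ n k w ν v, p x.length = ∏ j ∈ Finset.range w, p ((k + j) * n - 1) := by
  unfold JJ
  rw [Finset.prod_image]
  · refine Finset.prod_congr rfl fun j _ => ?_
    rw [length_zq h, length_tl']
  · intro j _ j' _ he
    exact (zq_inj h (tl'_lt v) (tl'_lt v) rfl (tl'_ne hk v) he).2

theorem atom_eq {n k w ν : ℕ} {v : List ℕ} (hk : 1 ≤ k) (hv : v.length = k)
    (hlt : ∀ a ∈ v, a < 2 ^ ν) (A : Oracle) (j : ℕ) :
    (ins n k w ν).atom A v (0, List.range k ++ List.replicate j 0) = A (fq n ν v j) := by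
  show A ((List.range k ++ List.replicate j 0).flatMap
    (fun i => ((List.range (2 ^ ν)).map (lb n ν)).getD (v.getD i 0) [])) = _
  congr 1
  rw [List.flatMap_append]
  unfold fq
  rw [List.flatMap_append]
  have hget : ∀ a < 2 ^ ν, ((List.range (2 ^ ν)).map (lb n ν)).getD a [] = lb n ν a := by
    intro a ha
    rw [List.getD_eq_getElem _ _ (by simpa using ha)]
    simp
  congr 1
  · subst hv
    rw [flat_getD v (fun a => ((List.range (2 ^ ν)).map (lb n ν)).getD a [])]
    exact flatMap_congr' fun a ha => hget a (hlt a ha)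
  · induction j with
    | zero => rfl
    | succ j ih =>
      rw [List.replicate_succ, List.replicate_succ, List.flatMap_cons, List.flatMap_cons, ih,
        hget _ (getD_lt hlt)]

/-- **The truth of the hard instance.** -/
theorem sat_ins {n k w ν : ℕ} (hk : 1 ≤ k) (A E : Oracle) :
    (ins n k w ν).Sat (join A E) ↔ ∃ v : Fin k → Fin (2 ^ ν), A ∈ HitJ (JJ n k w ν v) := by
  rw [sat_one (ins_isW n k w ν)]
  have e1 : (ins n k w ν).blocks.sum = k := by
    show ([k] : List ℕ).sum = k
    simp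
  have e2 : (ins n k w ν).labels.length = 2 ^ ν := by
    show ((List.range (2 ^ ν)).map (lb n ν)).length = _
    rw [List.length_map, List.length_range]
  rw [e1, e2]
  have key : ∀ l : List ℕ, l.length = k → (∀ a ∈ l, a < 2 ^ ν) →
      ((ins n k w ν).atoms.map ((ins n k w ν).atom (join A E) l) ∈ (ins n k w ν).acc ↔
        ∀ j < w, A (zq n ν l j) = true) := by
    intro l hl hlt
    have hne : l ≠ [] := by
      rintro rfl
      simp at hl
      omega
    show ((List.range w).map fun j => (0, List.range k ++ List.replicate j 0)).map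
      ((ins n k w ν).atom (join A E) l) ∈ [List.replicate w true] ↔ _
    rw [List.mem_singleton, List.map_map, List.eq_replicate_iff]
    constructor
    · rintro ⟨_, h2⟩ j hj
      have h3 := h2 ((ins n k w ν).atom (join A E) l (0, List.range k ++ List.replicate j 0))
        (List.mem_map.2 ⟨j, List.mem_range.2 hj, rfl⟩)
      rw [atom_eq hk hl hlt, fq_eq n ν hne] at h3
      exact h3
    · intro h
      refine ⟨by simp, fun b hb => ?_⟩
      obtain ⟨j, hj, rfl⟩ := List.mem_map.1 hb
      show (ins n k w ν).atom (join A E) l (0, List.range k ++ List.replicate j 0) = true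
      rw [atom_eq hk hl hlt, fq_eq n ν hne]
      exact h j (List.mem_range.1 hj)
  constructor
  · rintro ⟨l, ⟨h1, h2⟩, h3⟩
    obtain ⟨v, rfl⟩ := exists_tl' h1 h2
    refine ⟨v, fun x hx => ?_⟩
    obtain ⟨j, hj, rfl⟩ := mem_JJ.1 hx
    exact (key _ h1 h2).1 h3 j hj
  · rintro ⟨v, hv⟩
    exact ⟨tl' v, ⟨length_tl' v, tl'_lt v⟩, (key _ (length_tl' v) (tl'_lt v)).2 fun j hj =>
      hv _ (mem_JJ.2 ⟨j, hj, rfl⟩)⟩

/-- the constant part of the size -/
def cst (k w : ℕ) : ℕ :=
  sz ([k] : List ℕ) +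
    sz ((List.range w).map fun j => ((0 : ℕ), List.range k ++ List.replicate j 0)) +
    sz [List.replicate w true] + 16

theorem sz_ins {n ν : ℕ} (h : ν + 1 ≤ n) (k w : ℕ) :
    (bits (ins n k w ν)).length ≤ 2 ^ ν * (4 * n + 2) + cst k w := by
  rw [bits_length]
  have e : sz (ins n k w ν) = sz ((List.range (2 ^ ν)).map (lb n ν)) +
      (sz ([] : List (List (ℕ × ℕ))) + (sz ([k] : List ℕ) +
      (sz ((List.range w).map fun j => ((0 : ℕ), List.range k ++ List.replicate j 0)) +
        sz [List.replicate w true] + 1) + 1) + 1) + 1 := by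
    have : sz (ins n k w ν) = sz ((List.range (2 ^ ν)).map (lb n ν),
      ([] : List (List (ℕ × ℕ))), [k],
      ((List.range w).map fun j => ((0 : ℕ), List.range k ++ List.replicate j 0)),
      [List.replicate w true]) := rfl
    rw [this, sz_pair, sz_pair, sz_pair, sz_pair]
  have h1 := sz_le_length_mul ((List.range (2 ^ ν)).map (lb n ν))
    (4 * n + 1) (by
    intro a ha
    obtain ⟨i, _, rfl⟩ := List.mem_map.1 ha
    have := sz_listBool_le (lb n ν i)
    rw [length_lb h] at this
    exact this)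
  rw [List.length_map, List.length_range] at h1
  have h3 : sz ([] : List (List (ℕ × ℕ))) = 1 := rfl
  rw [e, h3]
  unfold cst
  have e2 : 4 * n + 1 + 1 = 4 * n + 2 := rfl
  rw [e2] at h1
  omega

open Classical in
/-- few tuples have a question in a given set -/
theorem card_touch {n k w ν : ℕ} (h : ν + 1 ≤ n) (hk : 1 ≤ k) (Q : Finset (List Bool)) :
    (Finset.univ.filter fun v : Fin k → Fin (2 ^ ν) =>
      ∃ x ∈ JJ n k w ν v, false :: x ∈ Q).card ≤ Q.card := by
  have hch : ∀ v : Fin k → Fin (2 ^ ν), (∃ x ∈ JJ n k w ν v, false :: x ∈ Q) →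
      ∃ y : List Bool, y ∈ Q ∧ ∃ x ∈ JJ n k w ν v, false :: x = y := by
    rintro v ⟨x, h1, h2⟩
    exact ⟨false :: x, h2, x, h1, rfl⟩
  choose f hf1 hf2 using hch
  refine Finset.card_le_card_of_injOn (fun v =>
    if hv : ∃ x ∈ JJ n k w ν v, false :: x ∈ Q then f v hv else []) ?_ ?_
  · intro v hv
    rw [Finset.coe_filter] at hv
    have h2 := hv.2
    dsimp only
    rw [dif_pos h2]
    exact hf1 v h2
  · intro v hv v' hv' he
    rw [Finset.coe_filter] at hv hv'
    have h2 := hv.2
    have h2' := hv'.2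
    dsimp only at he
    rw [dif_pos h2, dif_pos h2'] at he
    obtain ⟨x, h3, h4⟩ := hf2 v h2
    obtain ⟨x', h3', h4'⟩ := hf2 v' h2'
    have h5 : x = x' := by
      have := h4.trans (he.trans h4'.symm)
      exact (List.cons.inj this).2
    subst h5
    by_contra hne
    exact (Finset.disjoint_left.1 (JJ_disjoint h hk hne)) h3 h3'

end Pool.Agent.T6.H49.RO
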