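import Pool.Agent.T6.H49.RO.Defs
import Pool.Agent.H628R3.RO.M1

/-!
# Random oracles with an arbitrary density: planting
-/

set_option autoImplicit false

namespace Pool.Agent.T6.H49.RO

open MeasureTheory
open Pool.Agent.H628R3.RO (Oracle Loc measurableSet_of_loc measurable_upd plant plant_insert)

instance (p : ℕ → unitInterval) : IsProbabilityMeasure (randomP p) := by
  unfold randomP; infer_instance

lemma coinP_apply (q : unitInterval) (T : Set Bool) :
    coinP q T = ENNReal.ofReal q * (T.indicator 1 true) +
      ENNReal.ofReal (1 - q) * (T.indicator 1 false) := by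
  have hT : MeasurableSet T := MeasurableSet.of_discrete
  simp [coinP, Measure.dirac_apply' _ hT]

lemma ofReal_add_one (q : unitInterval) :
    ENNReal.ofReal (q : ℝ) + ENNReal.ofReal (1 - q) = 1 := by
  have h1 : (0 : ℝ) ≤ q := q.2.1
  have h2 : (0 : ℝ) ≤ 1 - q := by linarith [q.2.2]
  rw [← ENNReal.ofReal_add h1 h2]
  simp

/-- tossing the coin of one string first -/
lemma randomP_eq_upd (p : ℕ → unitInterval) (x : List Bool) :
    ENNReal.ofReal (p x.length) • (randomP p).map (fun A : Oracle => Function.update A x true) +
      ENNReal.ofReal (1 - p x.length) •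
        (randomP p).map (fun A : Oracle => Function.update A x false) =
      randomP p := by
  classical
  refine Measure.eq_infinitePi _ fun s t ht => ?_
  have hpi : MeasurableSet (Set.pi (s : Set (List Bool)) t) :=
    MeasurableSet.pi s.countable_toSet fun i _ => ht i
  rw [Measure.add_apply, Measure.smul_apply, Measure.smul_apply,
    Measure.map_apply (measurable_upd x true) hpi, Measure.map_apply (measurable_upd x false) hpi]
  simp only [smul_eq_mul]
  by_cases hx : x ∈ s
  · have key : ∀ b : Bool, randomP p ((fun A : Oracle => Function.update A x b) ⁻¹'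
        (Set.pi (s : Set (List Bool)) t)) =
          (t x).indicator 1 b * ∏ i ∈ s.erase x, coinP (p i.length) (t i) := by
      intro b
      by_cases hb : b ∈ t x
      · have h1 : (fun A : Oracle => Function.update A x b) ⁻¹' (Set.pi (s : Set (List Bool)) t) =
            Set.pi (s.erase x : Set (List Bool)) t := by
          ext A
          simp only [Set.mem_preimage, Set.mem_pi, Finset.mem_coe, Finset.mem_erase]
          constructor
          · rintro h i ⟨hi, his⟩
            have := h i his
            rwa [Function.update_of_ne hi] at this
          · intro h i his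
            by_cases hi : i = x
            · subst hi; simpa using hb
            · rw [Function.update_of_ne hi]; exact h i ⟨hi, his⟩
        rw [h1, Set.indicator_of_mem hb]
        unfold randomP
        have h2 := Measure.infinitePi_pi (fun z : List Bool => coinP (p z.length))
          (s := s.erase x) (t := t) (fun i _ => ht i)
        simp only [Finset.coe_erase] at h2 ⊢
        rw [h2]; simp
      · have h1 : (fun A : Oracle => Function.update A x b) ⁻¹' (Set.pi (s : Set (List Bool)) t) =
            ∅ := by
          ext A
          simp only [Set.mem_preimage, Set.mem_pi, Finset.mem_coe, Set.mem_empty_iff_false,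
            iff_false]
          intro h
          have := h x hx
          simp only [Function.update_self] at this
          exact hb this
        rw [h1, Set.indicator_of_notMem hb]
        simp
    rw [key true, key false, ← Finset.mul_prod_erase s _ hx, coinP_apply]
    ring
  · have key : ∀ b : Bool, (fun A : Oracle => Function.update A x b) ⁻¹'
        (Set.pi (s : Set (List Bool)) t) = Set.pi (s : Set (List Bool)) t := by
      intro b
      ext A
      simp only [Set.mem_preimage, Set.mem_pi, Finset.mem_coe]
      refine forall₂_congr fun i hi => ?_
      have : i ≠ x := fun h => hx (h ▸ hi)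
      rw [Function.update_of_ne this]
    rw [key true, key false, ← add_mul, ofReal_add_one, one_mul]
    unfold randomP
    exact Measure.infinitePi_pi (fun z : List Bool => coinP (p z.length)) (s := s) (t := t)
      (fun i _ => ht i)

/-- tossing the coin of one string first -/
theorem split (p : ℕ → unitInterval) (x : List Bool) {S : Set Oracle} (hS : MeasurableSet S) :
    (randomP p).real S = p x.length * (randomP p).real {A | Function.update A x true ∈ S} +
      (1 - p x.length) * (randomP p).real {A | Function.update A x false ∈ S} := by
  have h1 : randomP p S =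
      ENNReal.ofReal (p x.length) * randomP p {A | Function.update A x true ∈ S} +
      ENNReal.ofReal (1 - p x.length) * randomP p {A | Function.update A x false ∈ S} := by
    conv_lhs => rw [← randomP_eq_upd p x]
    rw [Measure.add_apply, Measure.smul_apply, Measure.smul_apply,
      Measure.map_apply (measurable_upd x true) hS,
      Measure.map_apply (measurable_upd x false) hS]
    rfl
  have h2 : (0 : ℝ) ≤ p x.length := (p x.length).2.1
  have h3 : (0 : ℝ) ≤ 1 - p x.length := by linarith [(p x.length).2.2]
  simp only [measureReal_def, h1]
  rw [ENNReal.toReal_add (by finiteness) (by finiteness), ENNReal.toReal_mul, ENNReal.toReal_mul,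
    ENNReal.toReal_ofReal h2, ENNReal.toReal_ofReal h3]

lemma prob_upd (p : ℕ → unitInterval) (x : List Bool) {S : Set Oracle} (hS : MeasurableSet S) :
    (randomP p).real ({A | A x = true} ∩ S) =
      p x.length * (randomP p).real ((fun A : Oracle => Function.update A x true) ⁻¹' S) := by
  have hx : MeasurableSet {A : Oracle | A x = true} := by
    have h0 : Measurable (fun A : Oracle => A x) := measurable_pi_apply x
    exact h0 (MeasurableSet.singleton true)
  rw [split p x (hx.inter hS)]
  have h2 : {A : Oracle | Function.update A x true ∈ {A : Oracle | A x = true} ∩ S} =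
      (fun A : Oracle => Function.update A x true) ⁻¹' S := by
    ext A; simp
  have h3 : {A : Oracle | Function.update A x false ∈ {A : Oracle | A x = true} ∩ S} = ∅ := by
    ext A; simp
  rw [h2, h3]
  simp

/-- **Planting.** -/
theorem prob_plant (p : ℕ → unitInterval) {S : Set Oracle} (hS : MeasurableSet S)
    (J : Finset (List Bool)) :
    (randomP p).real ({A | ∀ x ∈ J, A x = true} ∩ S) =
      (∏ x ∈ J, (p x.length : ℝ)) * (randomP p).real (plant J ⁻¹' S) := by
  classical
  induction J using Finset.induction_on generalizing S with
  | empty =>
    have h : plant ∅ ⁻¹' S = S := by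
      ext A
      have : plant ∅ A = A := by funext y; simp [plant]
      simp [this]
    simp [h]
  | insert x J hx ih =>
    have h1 : {A : Oracle | ∀ y ∈ insert x J, A y = true} ∩ S =
        {A | A x = true} ∩ ({A | ∀ y ∈ J, A y = true} ∩ S) := by
      ext A
      simp only [Finset.mem_insert, forall_eq_or_imp, Set.mem_inter_iff, Set.mem_ofPred_eq]
      tauto
    have hJ : MeasurableSet {A : Oracle | ∀ y ∈ J, A y = true} := by
      refine measurableSet_of_loc (K := (J : Set (List Bool))) J.finite_toSet ?_
      intro A A' h
      simp only [Set.mem_ofPred_eq]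
      refine forall₂_congr fun y hy => ?_
      rw [h y hy]
    rw [h1, prob_upd p x (hJ.inter hS)]
    have h2 : (fun A : Oracle => Function.update A x true) ⁻¹' ({A | ∀ y ∈ J, A y = true} ∩ S) =
        {A | ∀ y ∈ J, A y = true} ∩ (fun A : Oracle => Function.update A x true) ⁻¹' S := by
      ext A
      simp only [Set.mem_preimage, Set.mem_inter_iff, Set.mem_ofPred_eq]
      refine and_congr_left fun _ => forall₂_congr fun y hy => ?_
      have : y ≠ x := fun h => hx (h ▸ hy)
      rw [Function.update_of_ne this]
    rw [h2, ih (measurable_upd x true hS), Finset.prod_insert hx]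
    have h3 : plant J ⁻¹' ((fun A : Oracle => Function.update A x true) ⁻¹' S) =
        plant (insert x J) ⁻¹' S := by
      ext A
      simp only [Set.mem_preimage, plant_insert]
    rw [h3]
    ring

theorem measurable_plant (J : Finset (List Bool)) : Measurable (plant J) := by
  refine measurable_pi_lambda _ fun y => ?_
  unfold plant
  by_cases hy : y ∈ J
  · simp only [if_pos hy]
    exact measurable_const
  · simp only [if_neg hy]
    exact measurable_pi_apply _

/-- a family of subsets which covers every point at most `q` times -/
theorem sum_le {ι : Type} (μ : Measure Oracle) [IsProbabilityMeasure μ] (V : Finset ι)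
    (X : Set Oracle) (Y : ι → Set Oracle) (hX : MeasurableSet X)
    (hY : ∀ v ∈ V, MeasurableSet (Y v)) (q : ℝ)
    [∀ A v, Decidable (A ∈ Y v)]
    (hq : ∀ A, (((V.filter fun v => A ∈ Y v).card : ℕ) : ℝ) ≤ Set.indicator X (fun _ => q) A) :
    ∑ v ∈ V, μ.real (Y v) ≤ q * μ.real X := by
  classical
  have e1 : ∀ v ∈ V, μ.real (Y v) = ∫ A, Set.indicator (Y v) (1 : Oracle → ℝ) A ∂μ := fun v hv =>
    (integral_indicator_one (hY v hv)).symm
  have hint : ∀ v ∈ V, Integrable (Set.indicator (Y v) (1 : Oracle → ℝ)) μ := fun v hv =>
    (integrable_const (1 : ℝ)).indicator (hY v hv)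
  rw [Finset.sum_congr rfl e1, ← integral_finsetSum _ hint, ← integral_indicator_one hX,
    ← integral_const_mul]
  refine integral_mono (integrable_finsetSum _ hint)
    (((integrable_const (1 : ℝ)).indicator hX).const_mul _) fun A => ?_
  have h1 := hq A
  have h2 : ∑ v ∈ V, Set.indicator (Y v) (1 : Oracle → ℝ) A =
      (((V.filter fun v => A ∈ Y v).card : ℕ) : ℝ) := by
    rw [Finset.card_filter]
    push_cast
    refine Finset.sum_congr rfl fun v _ => ?_
    rw [Set.indicator_apply]
    rfl
  show _ ≤ q * Set.indicator X 1 A
  rw [h2]
  refine h1.trans (le_of_eq ?_)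
  by_cases hA : A ∈ X
  · rw [Set.indicator_of_mem hA, Set.indicator_of_mem hA, Pi.one_apply, mul_one]
  · rw [Set.indicator_of_notMem hA, Set.indicator_of_notMem hA, mul_zero]

end Pool.Agent.T6.H49.RO
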