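import Pool.Agent.T6.H49.RO.One

/-!
# The numbers
-/

set_option autoImplicit false

namespace Pool.Agent.T6.H49.RO

open Filter

theorem dens_pow (p : ℕ → unitInterval) {e n k w : ℕ} (hk : 2 ≤ k) (hn : 1 ≤ n)
    (hw : w = 3 * k * e) (hp : ∀ ℓ, n ≤ ℓ → (p ℓ : ℝ) ^ e * ℓ ≤ 1) :
    (dens p n k w * (n : ℝ) ^ (3 * k)) ^ e ≤ 1 := by
  have h1 : (dens p n k w * (n : ℝ) ^ (3 * k)) ^ e =
      ∏ j ∈ Finset.range w, ((p ((k + j) * n - 1) : ℝ) ^ e * n) := by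
    rw [Finset.prod_mul_distrib, Finset.prod_const, Finset.card_range, mul_pow, ← pow_mul, hw,
      Finset.prod_pow]
    rfl
  rw [h1]
  refine Finset.prod_le_one (fun j _ => mul_nonneg (pow_nonneg (p _).2.1 _) (Nat.cast_nonneg _))
    fun j _ => ?_
  have h2 : n ≤ (k + j) * n - 1 := by
    have : 2 * n ≤ (k + j) * n := Nat.mul_le_mul_right _ (by omega)
    omega
  refine le_trans ?_ (hp _ h2)
  refine mul_le_mul_of_nonneg_left ?_ (pow_nonneg (p _).2.1 _)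
  exact_mod_cast h2

theorem numbers (p : ℕ → unitInterval) (hpos : ∀ᶠ ℓ : ℕ in atTop, 0 < (p ℓ : ℝ)) {e : ℕ}
    (he : 1 ≤ e) (hup : ∀ᶠ ℓ : ℕ in atTop, (p ℓ : ℝ) ^ e * ℓ ≤ 1)
    (hlow : ∀ d : ℕ, ∀ᶠ ℓ : ℕ in atTop, (-Real.log (p ℓ)) ^ d ≤ ℓ) {k : ℕ} (hk : 2 ≤ k) (d : ℕ)
    {w : ℕ} (hw : w = 3 * k * e) :
    ∀ᶠ n : ℕ in atTop, ∃ ν : ℕ, 0 < dens p n k w ∧
      8 * ((2 : ℝ) ^ (ν * k) * dens p n k w) ≤ 1 ∧
      1 ≤ 8 * (2 ^ k * ((2 : ℝ) ^ (ν * k) * dens p n k w)) ∧ n ^ 2 ≤ 2 ^ ν ∧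
      (ν + 3) ^ d ≤ n := by
  obtain ⟨n₁, h₁⟩ := eventually_atTop.1 hpos
  obtain ⟨n₂, h₂⟩ := eventually_atTop.1 hup
  obtain ⟨n₃, h₃⟩ := eventually_atTop.1 (hlow (2 * d))
  filter_upwards [eventually_ge_atTop (n₁ + n₂ + n₃ + 16 + 16 ^ d * (w ^ (2 * d) * (k + w)))]
    with n hn
  have hn16 : 16 ≤ n := by omega
  have hw1 : 1 ≤ w := by
    rw [hw]
    exact Nat.mul_pos (by omega) (by omega)
  have hℓ : ∀ j, n ≤ (k + j) * n - 1 := by
    intro j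
    have : 2 * n ≤ (k + j) * n := Nat.mul_le_mul_right _ (by omega)
    omega
  set ρ := dens p n k w with hρ
  have hρ0 : 0 < ρ := Finset.prod_pos fun j _ => h₁ _ (by have := hℓ j; omega)
  have hρ1 : ρ * (n : ℝ) ^ (3 * k) ≤ 1 := by
    have hne : e ≠ 0 := by omega
    have h1 := dens_pow p (n := n) hk (by omega) hw fun ℓ hl => h₂ ℓ (by omega)
    exact (pow_le_one_iff_of_nonneg (by positivity) hne).1 h1
  have hn0 : (16 : ℝ) ≤ n := by exact_mod_cast hn16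
  have h8 : (8 : ℝ) ≤ (n : ℝ) ^ (3 * k) := by
    calc (8 : ℝ) ≤ (n : ℝ) ^ 1 := by rw [pow_one]; linarith
      _ ≤ (n : ℝ) ^ (3 * k) := pow_le_pow_right₀ (by linarith) (by omega)
  have hex : ∃ ν : ℕ, 1 < 8 * ((2 : ℝ) ^ ((ν + 1) * k) * ρ) := by
    obtain ⟨ν, hν⟩ := pow_unbounded_of_one_lt (1 / (8 * ρ)) (one_lt_two : (1 : ℝ) < 2)
    refine ⟨ν, ?_⟩
    have h1 : (2 : ℝ) ^ ν ≤ 2 ^ ((ν + 1) * k) := by
      refine pow_le_pow_right₀ (by norm_num) ?_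
      nlinarith
    have h2 := hν.trans_le h1
    rw [div_lt_iff₀ (by positivity)] at h2
    linarith
  classical
  obtain ⟨ν, hνdef⟩ : ∃ ν, ν = Nat.find hex := ⟨_, rfl⟩
  have hν1 : 1 < 8 * ((2 : ℝ) ^ ((ν + 1) * k) * ρ) := by
    rw [hνdef]
    exact Nat.find_spec hex
  have e1 : (2 : ℝ) ^ ((ν + 1) * k) = 2 ^ k * 2 ^ (ν * k) := by
    rw [← pow_add]
    congr 1
    ring
  have hν2 : 8 * ((2 : ℝ) ^ (ν * k) * ρ) ≤ 1 := by
    rcases Nat.eq_zero_or_pos ν with h0 | h0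
    · rw [h0, zero_mul, pow_zero, one_mul]
      have : ρ * 8 ≤ ρ * (n : ℝ) ^ (3 * k) := mul_le_mul_of_nonneg_left h8 hρ0.le
      linarith
    · have h1 := Nat.find_min hex (m := ν - 1) (by omega)
      rw [not_lt, Nat.sub_add_cancel h0] at h1
      exact h1
  have hν3 : n ^ 2 ≤ 2 ^ ν := by
    have h1 : (n : ℝ) ^ (3 * k) < 8 * 2 ^ ((ν + 1) * k) := by
      have h2 : (n : ℝ) ^ (3 * k) * 1 < (n : ℝ) ^ (3 * k) * (8 * ((2 : ℝ) ^ ((ν + 1) * k) * ρ)) :=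
        mul_lt_mul_of_pos_left hν1 (by positivity)
      have h3 : (n : ℝ) ^ (3 * k) * (8 * ((2 : ℝ) ^ ((ν + 1) * k) * ρ)) =
          8 * 2 ^ ((ν + 1) * k) * (ρ * (n : ℝ) ^ (3 * k)) := by ring
      have h4 : 8 * (2 : ℝ) ^ ((ν + 1) * k) * (ρ * (n : ℝ) ^ (3 * k)) ≤
          8 * 2 ^ ((ν + 1) * k) * 1 := mul_le_mul_of_nonneg_left hρ1 (by positivity)
      linarith
    have h2 : n ^ (3 * k) < 8 * 2 ^ ((ν + 1) * k) := by exact_mod_cast h1
    have h3 : (n ^ 3) ^ k < (2 ^ (ν + 4)) ^ k := by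
      rw [← pow_mul, ← pow_mul]
      refine h2.trans_le ?_
      have h4 : (8 : ℕ) ≤ 2 ^ (3 * k) := by
        calc (8 : ℕ) = 2 ^ 3 := by norm_num
          _ ≤ 2 ^ (3 * k) := Nat.pow_le_pow_right (by norm_num) (by omega)
      calc 8 * 2 ^ ((ν + 1) * k) ≤ 2 ^ (3 * k) * 2 ^ ((ν + 1) * k) := Nat.mul_le_mul_right _ h4
        _ = 2 ^ ((ν + 4) * k) := by
          rw [← pow_add]
          congr 1
          ring
    have h4 : n ^ 3 < 2 ^ (ν + 4) := lt_of_pow_lt_pow_left₀ k (Nat.zero_le _) h3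
    have h5 : 16 * n ^ 2 ≤ n ^ 3 := by
      have : n ^ 3 = n * n ^ 2 := by ring
      rw [this]
      exact Nat.mul_le_mul_right _ hn16
    have h6 : (2 : ℕ) ^ (ν + 4) = 16 * 2 ^ ν := by rw [pow_add]; ring
    omega
  have hν0 : 1 ≤ ν := by
    by_contra h
    have : ν = 0 := by omega
    rw [this, pow_zero] at hν3
    have : 16 ^ 2 ≤ n ^ 2 := Nat.pow_le_pow_left hn16 2
    omega
  refine ⟨ν, hρ0, hν2, ?_, hν3, ?_⟩
  · rw [e1] at hν1
    linarith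
  -- `ν` is small
  have h1 : (ν : ℝ) ≤ ∑ j ∈ Finset.range w, -Real.log (p ((k + j) * n - 1)) := by
    have h2 : (2 : ℝ) ^ (ν * k) * ρ ≤ 1 := by
      have : 0 ≤ (2 : ℝ) ^ (ν * k) * ρ := by positivity
      linarith
    have h3 : Real.log ((2 : ℝ) ^ (ν * k) * ρ) ≤ 0 := Real.log_nonpos (by positivity) h2
    rw [Real.log_mul (by positivity) hρ0.ne', Real.log_pow] at h3
    have h4 : Real.log ρ = ∑ j ∈ Finset.range w, Real.log (p ((k + j) * n - 1)) := by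
      rw [hρ]
      unfold dens
      exact Real.log_prod fun j _ => (h₁ _ (by have := hℓ j; omega)).ne'
    rw [Finset.sum_neg_distrib, ← h4]
    have h5 : (0.69 : ℝ) ≤ Real.log 2 := by
      have := Real.log_two_gt_d9
      linarith
    have h6 : (ν : ℝ) ≤ ((ν * k : ℕ) : ℝ) * Real.log 2 := by
      have h7 : (2 : ℝ) ≤ k := by exact_mod_cast hk
      have h8 : (0 : ℝ) ≤ ν := Nat.cast_nonneg _
      have h9 : (1 : ℝ) ≤ k * Real.log 2 := by nlinarith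
      push_cast
      calc (ν : ℝ) = ν * 1 := (mul_one _).symm
        _ ≤ ν * (k * Real.log 2) := mul_le_mul_of_nonneg_left h9 h8
        _ = _ := by ring
    linarith
  have hwne : (Finset.range w).Nonempty := ⟨0, Finset.mem_range.2 hw1⟩
  obtain ⟨j, hj, h2⟩ := Finset.exists_le_of_sum_le (s := Finset.range w)
    (f := fun _ => (ν : ℝ) / w) (g := fun j => -Real.log (p ((k + j) * n - 1))) hwne (by
      rw [Finset.sum_const, Finset.card_range, nsmul_eq_mul]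
      have hwr : (w : ℝ) ≠ 0 := by
        have : (0 : ℝ) < w := by exact_mod_cast hw1
        exact this.ne'
      rw [mul_div_cancel₀ _ hwr]
      exact h1)
  rw [Finset.mem_range] at hj
  have h3 := h₃ ((k + j) * n - 1) (by have := hℓ j; omega)
  have hwr : (0 : ℝ) < w := by exact_mod_cast hw1
  have h4 : ((ν : ℝ) / w) ^ (2 * d) ≤ (((k + w) * n : ℕ) : ℝ) := by
    refine (pow_le_pow_left₀ (by positivity) h2 _).trans (h3.trans ?_)
    refine Nat.cast_le.2 ?_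
    have : (k + j) * n ≤ (k + w) * n := Nat.mul_le_mul_right _ (by omega)
    omega
  have h5 : ν ^ (2 * d) ≤ w ^ (2 * d) * ((k + w) * n) := by
    rw [div_pow, div_le_iff₀ (by positivity)] at h4
    have : (ν : ℝ) ^ (2 * d) ≤ ((w ^ (2 * d) * ((k + w) * n) : ℕ) : ℝ) := by
      refine h4.trans (le_of_eq ?_)
      push_cast
      ring
    exact_mod_cast this
  have h6 : (ν + 3) ^ (2 * d) ≤ n ^ 2 := by
    have h7 : (ν + 3) ^ (2 * d) ≤ (4 * ν) ^ (2 * d) := Nat.pow_le_pow_left (by omega) _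
    have h8 : (4 * ν) ^ (2 * d) = 16 ^ d * ν ^ (2 * d) := by
      rw [mul_pow, pow_mul]
      norm_num
    calc (ν + 3) ^ (2 * d) ≤ 16 ^ d * ν ^ (2 * d) := by rw [← h8]; exact h7
      _ ≤ 16 ^ d * (w ^ (2 * d) * ((k + w) * n)) := Nat.mul_le_mul_left _ h5
      _ = 16 ^ d * (w ^ (2 * d) * (k + w)) * n := by ring
      _ ≤ n * n := Nat.mul_le_mul_right _ (by omega)
      _ = n ^ 2 := by ring
  rw [mul_comm 2 d, pow_mul] at h6
  exact le_of_sq_le_sq' h6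
where
  le_of_sq_le_sq' {a b : ℕ} (h : a ^ 2 ≤ b ^ 2) : a ≤ b :=
    (Nat.pow_le_pow_iff_left (by norm_num)).1 h

end Pool.Agent.T6.H49.RO
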