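import Pool.Agent.Y581.WN.Mini
import Pool.Agent.T6.H49.RO.Inst

/-!
# One level
-/

set_option autoImplicit false

namespace Pool.Agent.T6.H49.RO

open MeasureTheory
open Pool.Agent.NPC Pool.Agent.H620R2.Gauge Pool.Agent.TH678.GC Pool.Agent.Y626.WG
open Pool.Agent.H628R3.RO (plant Loc measurableSet_of_loc)
open Pool.Agent.Y581.WN (Badm eval_mono')

/-- the oracles for which the algorithms are correct for the instance `x` -/
def Gd (E : Oracle) (M N : Alg) (P : Polynomial ℕ) (σ : List Bool) (H c : ℕ) (x : Inst) :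
    Set Oracle := {A | ¬ Badm M N P σ H c x (join A E)}

theorem mem_Gd {E : Oracle} {M N : Alg} {P : Polynomial ℕ} {σ : List Bool} {H c : ℕ} {x : Inst}
    {A : Oracle} : A ∈ Gd E M N P σ H c x ↔ ∃ r : List Bool,
    M.out (join A E) (pairBits σ (bits x)) = some r ∧
    r.length ≤ (H * (Nat.log 2 (bits x).length + 1)) ^ c ∧
    (x.Sat (join A E) ↔
      ∃ w : List Bool, w.length ≤ P.eval r.length ∧ N.out (join A E) (pairBits w r) = some [true]) := by
  show ¬ ¬ _ ↔ _
  rw [not_not]

theorem join_congr {A A' E : Oracle} {q : List Bool} (h : ∀ z, q = false :: z → A z = A' z) :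
    join A E q = join A' E q := by
  rcases q with _ | ⟨b, q⟩
  · rfl
  · cases b
    · exact h q rfl
    · rfl

theorem loc_Gd (E : Oracle) (M N : Alg) (P : Polynomial ℕ) (σ : List Bool) (H c : ℕ)
    {n k w ν : ℕ} (h : ν + 1 ≤ n) (hk : 1 ≤ k) :
    ∃ L : ℕ, Loc {y | y.length ≤ L} (Gd E M N P σ H c (ins n k w ν)) := by
  obtain ⟨qM, hqM⟩ := M.out_local
  obtain ⟨qN, hqN⟩ := N.out_local
  set x := ins n k w ν with hx
  set R := (H * (Nat.log 2 (bits x).length + 1)) ^ c with hR
  refine ⟨qM.eval (pairBits σ (bits x)).length + qN.eval (2 * P.eval R + 1 + R) + (k + w) * n, ?_⟩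
  set L := qM.eval (pairBits σ (bits x)).length + qN.eval (2 * P.eval R + 1 + R) + (k + w) * n
    with hL
  have key : ∀ A A' : Oracle, (∀ y : List Bool, y.length ≤ L → A y = A' y) →
      A ∈ Gd E M N P σ H c x → A' ∈ Gd E M N P σ H c x := by
    intro A A' hag hA
    rw [mem_Gd] at hA ⊢
    obtain ⟨r, h1, h2, h3⟩ := hA
    have hj : ∀ q : List Bool, q.length ≤ L → join A' E q = join A E q := by
      intro q hq
      refine join_congr fun z hz => ?_
      rw [hz, List.length_cons] at hq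
      exact (hag z (by omega)).symm
    refine ⟨r, ?_, h2, ?_⟩
    · obtain ⟨Q, _, h4, h5⟩ := hqM (join A E) (pairBits σ (bits x))
      rw [← h1]
      exact h5 _ fun q hq => hj q ((h4 q hq).trans (by omega))
    · have e1 : x.Sat (join A' E) ↔ x.Sat (join A E) := by
        rw [hx, sat_ins hk, sat_ins hk]
        refine exists_congr fun v => ?_
        show (∀ y ∈ JJ n k w ν v, A' y = true) ↔ ∀ y ∈ JJ n k w ν v, A y = true
        refine forall₂_congr fun y hy => ?_
        obtain ⟨j, hj1, hj2⟩ := JJ_len h hy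
        rw [hag y]
        have : (k + j) * n ≤ (k + w) * n := Nat.mul_le_mul_right _ (by omega)
        omega
      rw [e1, h3]
      refine exists_congr fun u => and_congr_right fun hu => ?_
      obtain ⟨Q, _, h4, h5⟩ := hqN (join A E) (pairBits u r)
      rw [h5 (join A' E) fun q hq => hj q ?_]
      refine (h4 q hq).trans ?_
      have h6 : (pairBits u r).length ≤ 2 * P.eval R + 1 + R := by
        rw [length_pairBits]
        have h2' : r.length ≤ R := h2
        have := hu.trans (eval_mono' P h2')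
        omega
      have := eval_mono' qN h6
      omega
  intro A A' hag
  exact ⟨key A A' hag, key A' A fun y hy => (hag y hy).symm⟩

theorem measurable_Gd (E : Oracle) (M N : Alg) (P : Polynomial ℕ) (σ : List Bool) (H c : ℕ)
    {n k w ν : ℕ} (h : ν + 1 ≤ n) (hk : 1 ≤ k) :
    MeasurableSet (Gd E M N P σ H c (ins n k w ν)) := by
  obtain ⟨L, hL⟩ := loc_Gd E M N P σ H c h hk (w := w)
  exact measurableSet_of_loc (List.finite_length_le Bool L) hL

open Classical in
/-- **Few plantings.** -/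
theorem few (E : Oracle) (M N : Alg) (P : Polynomial ℕ) (σ : List Bool) (H c : ℕ)
    {n k w ν : ℕ} (h : ν + 1 ≤ n) (hk : 2 ≤ k)
    (hshort : ∀ r u : List Bool,
      r.length ≤ (H * (Nat.log 2 (bits (ins n k w ν)).length + 1)) ^ c →
      u.length ≤ P.eval r.length → ∀ A : Oracle, ∃ Q : Finset (List Bool),
        (∀ q ∈ Q, q.length ≤ n) ∧ ∀ A' : Oracle, (∀ q ∈ Q, A' q = A q) →
          N.out A' (pairBits u r) = N.out A (pairBits u r))
    {A : Oracle} (hA : A ∈ Gd E M N P σ H c (ins n k w ν))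
    (hno : ∀ v : Fin k → Fin (2 ^ ν), A ∉ HitJ (JJ n k w ν v)) :
    (Finset.univ.filter fun v : Fin k → Fin (2 ^ ν) =>
      plant (JJ n k w ν v) A ∈ Gd E M N P σ H c (ins n k w ν)).card ≤
      M.p.eval (pairBits σ (bits (ins n k w ν))).length := by
  set x := ins n k w ν with hx
  rw [mem_Gd] at hA
  obtain ⟨r, h1, h2, h3⟩ := hA
  have hns : ¬ x.Sat (join A E) := by
    rw [hx, sat_ins (by omega)]
    rintro ⟨v, hv⟩
    exact hno v hv
  obtain ⟨Q, hQ1, _, hQ3⟩ := M.out_local.choose_spec (join A E) (pairBits σ (bits x))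
  refine le_trans (Finset.card_le_card ?_) ((card_touch h (by omega) (w := w) (k := k) Q).trans hQ1)
  intro v hv
  rw [Finset.mem_filter] at hv ⊢
  refine ⟨Finset.mem_univ _, ?_⟩
  by_contra hcon
  push Not at hcon
  set J := JJ n k w ν v with hJ
  obtain ⟨r', h4, h5, h6⟩ := mem_Gd.1 hv.2
  have e1 : M.out (join (plant J A) E) (pairBits σ (bits x)) =
      M.out (join A E) (pairBits σ (bits x)) := by
    refine hQ3 _ fun q hq => join_congr fun z hz => ?_
    subst hz
    unfold plant
    rw [if_neg]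
    exact fun hzJ => hcon z hzJ hq
  rw [e1, h1, Option.some.injEq] at h4
  subst h4
  have h7 : x.Sat (join (plant J A) E) := by
    rw [hx, sat_ins (by omega)]
    refine ⟨v, fun y hy => ?_⟩
    unfold plant
    rw [if_pos hy]
  obtain ⟨u, h8, h9⟩ := h6.1 h7
  refine hns (h3.2 ⟨u, h8, ?_⟩)
  obtain ⟨Q', h10, h11⟩ := hshort r u h2 h8 (join A E)
  rw [← h9]
  refine (h11 (join (plant J A) E) fun q hq => join_congr fun z hz => ?_).symm
  subst hz
  unfold plant
  rw [if_neg]
  intro hzJ
  obtain ⟨j, _, hj⟩ := JJ_len h hzJ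
  have h12 := h10 _ hq
  rw [List.length_cons] at h12
  have h13 : 2 * n ≤ (k + j) * n := Nat.mul_le_mul_right _ (by omega)
  omega

/-- the density of a block -/
noncomputable def dens (p : ℕ → unitInterval) (n k w : ℕ) : ℝ :=
  ∏ j ∈ Finset.range w, (p ((k + j) * n - 1) : ℝ)

/-- **One level.** -/
theorem one_level (p : ℕ → unitInterval) (E : Oracle) (M N : Alg) (P : Polynomial ℕ)
    (σ : List Bool) (H c : ℕ) {n k w ν : ℕ} (h : ν + 1 ≤ n) (hk : 2 ≤ k)
    (hshort : ∀ r u : List Bool,
      r.length ≤ (H * (Nat.log 2 (bits (ins n k w ν)).length + 1)) ^ c →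
      u.length ≤ P.eval r.length → ∀ A : Oracle, ∃ Q : Finset (List Bool),
        (∀ q ∈ Q, q.length ≤ n) ∧ ∀ A' : Oracle, (∀ q ∈ Q, A' q = A q) →
          N.out A' (pairBits u r) = N.out A (pairBits u r))
    (hd0 : 0 < dens p n k w) (hd1 : 8 * ((2 : ℝ) ^ (ν * k) * dens p n k w) ≤ 1)
    (hd2 : 1 ≤ 8 * (2 ^ k * ((2 : ℝ) ^ (ν * k) * dens p n k w)))
    (hq : 4 * M.p.eval (pairBits σ (bits (ins n k w ν))).length ≤ 2 ^ (ν * k))
    {K : Set Oracle} (hK : MeasurableSet K) (hloc : Loc {y | y.length < n} K) :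
    (randomP p).real (K ∩ Gd E M N P σ H c (ins n k w ν)) ≤
      (1 - 1 / (32 * 2 ^ k)) * (randomP p).real K := by
  classical
  have hcard : ((Finset.univ : Finset (Fin k → Fin (2 ^ ν))).card : ℝ) = (2 : ℝ) ^ (ν * k) := by
    rw [Finset.card_univ, Fintype.card_fun, Fintype.card_fin, Fintype.card_fin, ← pow_mul]
    push_cast
    rfl
  have hlev := level p (Finset.univ : Finset (Fin k → Fin (2 ^ ν))) (JJ n k w ν)
    (fun v _ v' _ hne => JJ_disjoint h (by omega) hne) hd0
    (fun v _ => JJ_prod h (by omega) (fun m => (p m : ℝ)) v) hK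
    (measurable_Gd E M N P σ H c h (by omega) (w := w) (k := k) (ν := ν) (n := n))
    (fun v _ A => hloc _ _ fun y hy => by
      unfold plant
      rw [if_neg]
      intro hyJ
      obtain ⟨j, _, hj⟩ := JJ_len h hyJ
      have h13 : 2 * n ≤ (k + j) * n := Nat.mul_le_mul_right _ (by omega)
      have hy' : y.length < n := hy
      omega)
    (q := ((M.p.eval (pairBits σ (bits (ins n k w ν))).length : ℕ) : ℝ)) (Nat.cast_nonneg _)
    (fun A hA hno => Nat.cast_le.2 (few E M N P σ H c h hk hshort hA fun v => hno v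
      (Finset.mem_univ _)))
    (by
      rw [hcard]
      have : ((4 * M.p.eval (pairBits σ (bits (ins n k w ν))).length : ℕ) : ℝ) ≤
          ((2 ^ (ν * k) : ℕ) : ℝ) := Nat.cast_le.2 hq
      push_cast at this
      linarith)
    (by rw [hcard]; linarith)
  refine hlev.trans (mul_le_mul_of_nonneg_right ?_ measureReal_nonneg)
  rw [hcard]
  have h2k : (0 : ℝ) < 2 ^ k := by positivity
  have h3 : 1 / (32 * 2 ^ k) ≤ (2 : ℝ) ^ (ν * k) * dens p n k w / 4 := by
    rw [div_le_div_iff₀ (by positivity) (by norm_num)]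
    nlinarith
  linarith

end Pool.Agent.T6.H49.RO
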