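import Pool.Agent.T6.H49.RO.Meas
import Pool.Agent.Y626.WC.Self
import Pool.Agent.Y626.WR.Meas

/-!
# Random oracles with an arbitrary density: resampling finitely many bits
-/

set_option autoImplicit false

namespace Pool.Agent.T6.H49.RO

open MeasureTheory ProbabilityTheory
open Pool.Agent.H628R3.RO (Oracle Loc measurableSet_of_loc measurable_upd plant plant_insert)
open Pool.Agent.Y626.WR (ow measurable_ow)
open Pool.Agent.Y626.WC (cd cd_inj cd_lt cd_pos)

/-- the weight of a set of strings -/
noncomputable def wt (p : ℕ → unitInterval) (J T : Finset (List Bool)) : ℝ :=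
  ∏ z ∈ J, if z ∈ T then (p z.length : ℝ) else 1 - p z.length

theorem wt_nonneg (p : ℕ → unitInterval) (J T : Finset (List Bool)) : 0 ≤ wt p J T := by
  refine Finset.prod_nonneg fun z _ => ?_
  split_ifs
  · exact (p z.length).2.1
  · linarith [(p z.length).2.2]

theorem resample (p : ℕ → unitInterval) {S : Set Oracle} (hS : MeasurableSet S)
    (J : Finset (List Bool)) :
    (randomP p).real S = ∑ T ∈ J.powerset, wt p J T * (randomP p).real {A | ow J T A ∈ S} := by
  classical
  induction J using Finset.induction_on with
  | empty =>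
    have h : {A | ow ∅ ∅ A ∈ S} = S := by
      ext A
      have : ow ∅ ∅ A = A := by funext y; simp [ow]
      show ow ∅ ∅ A ∈ S ↔ A ∈ S
      rw [this]
    simp [h, wt]
  | insert x J hx ih =>
    rw [ih, Finset.sum_powerset_insert hx, ← Finset.sum_add_distrib]
    refine Finset.sum_congr rfl fun T hT => ?_
    rw [Finset.mem_powerset] at hT
    have hxT : x ∉ T := fun h => hx (hT h)
    have hm : MeasurableSet {A | ow J T A ∈ S} := measurable_ow J T hS
    rw [split p x hm]
    have e1 : {A | Function.update A x true ∈ {A | ow J T A ∈ S}} =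
        {A | ow (insert x J) (insert x T) A ∈ S} := by
      ext A
      have : ow J T (Function.update A x true) = ow (insert x J) (insert x T) A := by
        funext y
        unfold ow
        by_cases hy : y = x
        · subst hy
          simp [hx]
        · simp [hy]
      show ow J T (Function.update A x true) ∈ S ↔ _
      rw [this]
      rfl
    have e2 : {A | Function.update A x false ∈ {A | ow J T A ∈ S}} =
        {A | ow (insert x J) T A ∈ S} := by
      ext A
      have : ow J T (Function.update A x false) = ow (insert x J) T A := by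
        funext y
        unfold ow
        by_cases hy : y = x
        · subst hy
          simp [hx, hxT]
        · simp [hy]
      show ow J T (Function.update A x false) ∈ S ↔ _
      rw [this]
      rfl
    have w1 : wt p (insert x J) T = (1 - p x.length) * wt p J T := by
      unfold wt
      rw [Finset.prod_insert hx, if_neg hxT]
    have w2 : wt p (insert x J) (insert x T) = p x.length * wt p J T := by
      unfold wt
      rw [Finset.prod_insert hx, if_pos (Finset.mem_insert_self _ _)]
      congr 1
      refine Finset.prod_congr rfl fun z hz => ?_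
      have hzx : z ≠ x := fun h => hx (h ▸ hz)
      simp [hzx]
    rw [e1, e2, w1, w2]
    ring

theorem prob_univ (p : ℕ → unitInterval) : (randomP p).real (Set.univ : Set Oracle) = 1 :=
  probReal_univ

theorem sum_wt (p : ℕ → unitInterval) (J : Finset (List Bool)) :
    ∑ T ∈ J.powerset, wt p J T = 1 := by
  have h := resample p MeasurableSet.univ J
  rw [prob_univ] at h
  rw [h]
  refine Finset.sum_congr rfl fun T _ => ?_
  have : {A : Oracle | ow J T A ∈ (Set.univ : Set Oracle)} = Set.univ := by
    ext A; simp
  rw [this, prob_univ, mul_one]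

theorem inter_of_disjoint (p : ℕ → unitInterval) {K K' : Set (List Bool)} (hK : K.Finite)
    (hK' : K'.Finite) (hd : Disjoint K K') {S S' : Set Oracle} (h : Loc K S) (h' : Loc K' S') :
    (randomP p).real (S ∩ S') = (randomP p).real S * (randomP p).real S' := by
  classical
  have hind : iIndepFun (fun (i : List Bool) (ω : Oracle) => ω i) (randomP p) :=
    iIndepFun_infinitePi (P := fun z : List Bool => coinP (p z.length)) (X := fun _ b => b)
      (fun _ => measurable_id)
  have hd' : Disjoint hK.toFinset hK'.toFinset := by
    rw [Finset.disjoint_left]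
    intro x hx hx'
    rw [Set.Finite.mem_toFinset] at hx hx'
    exact (Set.disjoint_left.1 hd) hx hx'
  have hI := hind.indepFun_finset hK.toFinset hK'.toFinset hd' (fun i => measurable_pi_apply i)
  set r : Oracle → (hK.toFinset → Bool) := fun a i => a i with hr
  set r' : Oracle → (hK'.toFinset → Bool) := fun a i => a i with hr'
  have hS : S = r ⁻¹' (r '' S) := by
    ext A
    constructor
    · intro hA
      exact ⟨A, hA, rfl⟩
    · rintro ⟨B, hB, hBA⟩
      refine (h B A ?_).1 hB
      intro x hx
      exact congrFun hBA ⟨x, by simpa using hx⟩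
  have hS' : S' = r' ⁻¹' (r' '' S') := by
    ext A
    constructor
    · intro hA
      exact ⟨A, hA, rfl⟩
    · rintro ⟨B, hB, hBA⟩
      refine (h' B A ?_).1 hB
      intro x hx
      exact congrFun hBA ⟨x, by simpa using hx⟩
  have h1 := hI.measure_inter_preimage_eq_mul (r '' S) (r' '' S') (Set.toFinite _).measurableSet
    (Set.toFinite _).measurableSet
  rw [← hS, ← hS'] at h1
  simp only [measureReal_def, h1, ENNReal.toReal_mul]

theorem bcP (μ : Measure Oracle) [IsProbabilityMeasure μ] (Bad : List Bool → Set Oracle)
    (h : ∀ x, μ.real (Bad x) ≤ (1 / 2) ^ (2 * x.length + 2)) :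
    ∀ᵐ A ∂μ, {x | A ∈ Bad x}.Finite := by
  refine MeasureTheory.ae_finite_setOfPred_mem ?_
  have hs : Summable fun x : List Bool => 1 / ((cd x : ℕ) : ℝ) ^ 2 :=
    (Real.summable_one_div_nat_pow.2 (by norm_num : 1 < 2)).comp_injective
      (i := cd) (fun x y hxy => cd_inj x y hxy)
  refine ne_top_of_le_ne_top hs.tsum_ofReal_ne_top (ENNReal.tsum_le_tsum fun x => ?_)
  rw [← ENNReal.ofReal_toReal (MeasureTheory.measure_ne_top μ (Bad x))]
  refine ENNReal.ofReal_le_ofReal ((h x).trans ?_)
  have h1 : ((cd x : ℕ) : ℝ) ≤ 2 ^ (x.length + 1) := by exact_mod_cast (cd_lt x).le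
  have h2 : (0 : ℝ) < ((cd x : ℕ) : ℝ) := by exact_mod_cast cd_pos x
  have h3 : ((1 : ℝ) / 2) ^ (2 * x.length + 2) = 1 / (2 ^ (x.length + 1)) ^ 2 := by
    rw [one_div_pow, ← pow_mul]
    congr 2
    ring
  rw [h3]
  gcongr

end Pool.Agent.T6.H49.RO
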