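import Pool.Agent.T6.H49.RO.Resample
import Pool.Agent.Y626.WC.Dt

/-!
# Decision trees for disjunctions of local events, for random oracles with an arbitrary density
-/

set_option autoImplicit false

namespace Pool.Agent.T6.H49.RO

open MeasureTheory
open Pool.Agent.H628R3.RO (Oracle Loc measurableSet_of_loc)
open Pool.Agent.Y626.WR (ow)
open Pool.Agent.Y626.WC (DT)

/-- a local event has probability at least `c ^ (the number of the bits)` -/
theorem prob_live (p : ℕ → unitInterval) {J : Finset (List Bool)} {S : Set Oracle}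
    (hloc : ∀ A A' : Oracle, (∀ z ∈ J, A z = A' z) → (A ∈ S ↔ A' ∈ S)) {A0 : Oracle}
    (h0 : A0 ∈ S) {c : ℝ} (hc0 : 0 ≤ c)
    (hc : ∀ z ∈ J, c ≤ (p z.length : ℝ) ∧ c ≤ 1 - (p z.length : ℝ)) :
    c ^ J.card ≤ (randomP p).real S := by
  classical
  have hm : MeasurableSet S := measurableSet_of_loc (K := (J : Set (List Bool)))
    (Finset.finite_toSet _) fun A A' h => hloc A A' fun z hz => h z (Finset.mem_coe.2 hz)
  rw [resample p hm J]
  have h1 : {A | ow J (J.filter fun z => A0 z = true) A ∈ S} = Set.univ := by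
    ext A
    refine iff_of_true ?_ trivial
    refine (hloc A0 _ fun z hz => ?_).1 h0
    unfold ow
    rw [if_pos hz]
    by_cases h : A0 z = true
    · rw [h, eq_comm, decide_eq_true_eq, Finset.mem_filter]
      exact ⟨hz, h⟩
    · rw [Bool.not_eq_true] at h
      rw [h, eq_comm, decide_eq_false_iff_not, Finset.mem_filter, h]
      simp
  have h2 := Finset.single_le_sum (f := fun T => wt p J T * (randomP p).real {A | ow J T A ∈ S})
    (fun T _ => mul_nonneg (wt_nonneg p J T) measureReal_nonneg)
    (Finset.mem_powerset.2 (Finset.filter_subset (fun z => A0 z = true) J))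
  rw [h1, prob_univ, mul_one] at h2
  refine le_trans ?_ h2
  unfold wt
  rw [← Finset.prod_const]
  refine Finset.prod_le_prod (fun _ _ => hc0) fun z hz => ?_
  split_ifs
  · exact (hc z hz).1
  · exact (hc z hz).2

/-- the probability that none of some independent local events happens -/
theorem prob_none (p : ℕ → unitInterval) {ι : Type} (f : ι → Oracle → Prop)
    (D : ι → Finset (List Bool))
    (hloc : ∀ i, ∀ A A' : Oracle, (∀ z ∈ D i, A z = A' z) → (f i A ↔ f i A')) {w : ℕ}
    {c : ℝ} (hc0 : 0 ≤ c) (hc1 : c ≤ 1)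
    (s : Finset ι) (hlive : ∀ i ∈ s, (∃ A, f i A) ∧ (D i).card ≤ w)
    (hc : ∀ i ∈ s, ∀ z ∈ D i, c ≤ (p z.length : ℝ) ∧ c ≤ 1 - (p z.length : ℝ))
    (hdis : (s : Set ι).PairwiseDisjoint D) :
    (randomP p).real {A | ∀ i ∈ s, ¬ f i A} ≤ (1 - c ^ w) ^ s.card := by
  classical
  induction s using Finset.induction_on with
  | empty =>
    have : {A : Oracle | ∀ i ∈ (∅ : Finset ι), ¬ f i A} = Set.univ := by
      ext A; simp
    rw [this, prob_univ, Finset.card_empty, pow_zero]
  | insert j s hj ih =>
    have hl : ∀ i ∈ s, (∃ A, f i A) ∧ (D i).card ≤ w := fun i hi =>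
      hlive i (Finset.mem_insert_of_mem hi)
    have hcs : ∀ i ∈ s, ∀ z ∈ D i, c ≤ (p z.length : ℝ) ∧ c ≤ 1 - (p z.length : ℝ) := fun i hi =>
      hc i (Finset.mem_insert_of_mem hi)
    have hd : (s : Set ι).PairwiseDisjoint D := hdis.subset (by simp)
    have e1 : {A | ∀ i ∈ insert j s, ¬ f i A} = {A | ¬ f j A} ∩ {A | ∀ i ∈ s, ¬ f i A} := by
      ext A
      simp
    have hmj : MeasurableSet {A : Oracle | f j A} :=
      measurableSet_of_loc (K := (D j : Set (List Bool)))
        (Finset.finite_toSet _) fun A A' h => hloc j A A' fun z hz => h z (Finset.mem_coe.2 hz)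
    have e2 : (randomP p).real {A | ¬ f j A} ≤ 1 - c ^ w := by
      have h1 : (randomP p).real {A : Oracle | f j A}ᶜ = 1 - (randomP p).real {A : Oracle | f j A} :=
        probReal_compl_eq_one_sub hmj
      have h2 : {A : Oracle | f j A}ᶜ = {A | ¬ f j A} := rfl
      rw [h2] at h1
      rw [h1]
      obtain ⟨⟨A0, hA0⟩, hcd⟩ := hlive j (Finset.mem_insert_self _ _)
      have h3 := prob_live p (S := {A | f j A}) (hloc j) hA0 hc0
        (hc j (Finset.mem_insert_self _ _))
      have h4 : c ^ w ≤ c ^ (D j).card := pow_le_pow_of_le_one hc0 hc1 hcd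
      linarith
    have hdj : Disjoint (D j : Set (List Bool)) ((s.biUnion D : Finset (List Bool)) :
        Set (List Bool)) := by
      rw [Finset.disjoint_coe, Finset.disjoint_biUnion_right]
      intro i hi
      exact hdis (by simp) (by simp [hi]) (by rintro rfl; exact hj hi)
    rw [e1, inter_of_disjoint p (K := (D j : Set (List Bool)))
      (K' := ((s.biUnion D : Finset (List Bool)) : Set (List Bool)))
      (Finset.finite_toSet _) (Finset.finite_toSet _) hdj ?_ ?_]
    · rw [Finset.card_insert_of_notMem hj, pow_succ']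
      have h0 : (0 : ℝ) ≤ 1 - c ^ w := by
        have : c ^ w ≤ 1 := pow_le_one₀ hc0 hc1
        linarith
      exact mul_le_mul e2 (ih hl hcs hd) measureReal_nonneg h0
    · intro A A' h
      exact not_congr (hloc j A A' fun z hz => h z (Finset.mem_coe.2 hz))
    · intro A A' h
      refine forall₂_congr fun i hi => not_congr (hloc i A A' fun z hz => h z ?_)
      exact Finset.mem_coe.2 (Finset.mem_biUnion.2 ⟨i, hi, hz⟩)

/-- The disjunction of events which depend on at most `w` bits is, with high probability, the value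
of a decision tree. -/
theorem tree (p : ℕ → unitInterval) (W m : ℕ) (S : Finset (List Bool)) {c : ℝ} (hc0 : 0 ≤ c)
    (hc1 : c ≤ 1) (hc : ∀ z ∈ S, c ≤ (p z.length : ℝ) ∧ c ≤ 1 - (p z.length : ℝ)) :
    ∀ (w : ℕ), w ≤ W → ∀ (ι : Type)
    (f : ι → Oracle → Prop) (D : ι → Finset (List Bool)),
    (∀ i, ∀ A A' : Oracle, (∀ z ∈ D i, A z = A' z) → (f i A ↔ f i A')) →
    (∀ i, D i ⊆ S) → (∀ i, (∃ A, f i A) → (D i).card ≤ w) →
    ∃ t : DT, t.depth ≤ m * w ^ 2 ∧ t.In (⋃ i, (D i : Set (List Bool))) ∧
      (randomP p).real {A | ¬ (t.eval A = true ↔ ∃ i, f i A)} ≤ (1 - c ^ W) ^ m := by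
  classical
  have h1W : (0 : ℝ) ≤ 1 - c ^ W := by
    have : c ^ W ≤ 1 := pow_le_one₀ hc0 hc1
    linarith
  have hnn : (0 : ℝ) ≤ (1 - c ^ W) ^ m := pow_nonneg h1W _
  have hempty : (randomP p).real (∅ : Set Oracle) = 0 := by simp
  -- if some event always happens
  have hsure : ∀ (w : ℕ) (ι : Type)
      (f : ι → Oracle → Prop) (D : ι → Finset (List Bool)),
      (∀ i, ∀ A A' : Oracle, (∀ z ∈ D i, A z = A' z) → (f i A ↔ f i A')) →
      (∃ i, (∃ A, f i A) ∧ D i = ∅) →
      ∃ t : DT, t.depth ≤ m * w ^ 2 ∧ t.In (⋃ i, (D i : Set (List Bool))) ∧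
      (randomP p).real {A | ¬ (t.eval A = true ↔ ∃ i, f i A)} ≤ (1 - c ^ W) ^ m := by
    rintro w ι f D hloc ⟨i, ⟨A0, h0⟩, hD⟩
    refine ⟨DT.leaf true, Nat.zero_le _, trivial, ?_⟩
    have : {A | ¬ ((DT.leaf true).eval A = true ↔ ∃ i, f i A)} = ∅ := by
      rw [Set.eq_empty_iff_forall_notMem]
      intro A hA
      apply hA
      refine ⟨fun _ => ⟨i, (hloc i A0 A ?_).1 h0⟩, fun _ => rfl⟩
      rw [hD]
      intro z hz
      exact absurd hz (Finset.notMem_empty z)
    rw [this, hempty]
    exact hnn
  intro w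
  induction w with
  | zero =>
    intro _ ι f D hloc hS hlive
    by_cases hex : ∃ i, ∃ A, f i A
    · obtain ⟨i, hi⟩ := hex
      exact hsure 0 ι f D hloc ⟨i, hi, Finset.card_eq_zero.1 (Nat.le_zero.1 (hlive i hi))⟩
    · refine ⟨DT.leaf false, Nat.zero_le _, trivial, ?_⟩
      have : {A | ¬ ((DT.leaf false).eval A = true ↔ ∃ i, f i A)} = ∅ := by
        rw [Set.eq_empty_iff_forall_notMem]
        intro A hA
        apply hA
        refine ⟨fun h => absurd h (by simp [DT.eval]), fun ⟨i, h⟩ => absurd ⟨i, A, h⟩ hex⟩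
      rw [this, hempty]
      exact hnn
  | succ w ih =>
    intro hw ι f D hloc hS hlive
    by_cases hsr : ∃ i, (∃ A, f i A) ∧ D i = ∅
    · exact hsure (w + 1) ι f D hloc hsr
    by_cases hbig : ∃ s : Finset ι, s.card = m ∧ (∀ i ∈ s, ∃ A, f i A) ∧
        (s : Set ι).PairwiseDisjoint D
    · obtain ⟨s, hs, hsl, hsd⟩ := hbig
      refine ⟨DT.leaf true, Nat.zero_le _, trivial, ?_⟩
      have h1 := prob_none p f D hloc (w := w + 1) hc0 hc1 s
        (fun i hi => ⟨hsl i hi, hlive i (hsl i hi)⟩) (fun i _ z hz => hc z (hS i hz)) hsd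
      have h2 : (randomP p).real {A | ¬ ((DT.leaf true).eval A = true ↔ ∃ i, f i A)} ≤
          (randomP p).real {A | ∀ i ∈ s, ¬ f i A} := by
        refine measureReal_mono ?_ (measure_ne_top _ _)
        intro A hA i _ hi
        exact hA ⟨fun _ => ⟨i, hi⟩, fun _ => rfl⟩
      refine h2.trans (h1.trans ?_)
      rw [hs]
      have h3 : c ^ W ≤ c ^ (w + 1) := pow_le_pow_of_le_one hc0 hc1 hw
      have h4 : c ^ (w + 1) ≤ 1 := pow_le_one₀ hc0 hc1
      exact pow_le_pow_left₀ (by linarith) (by linarith) _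
    -- a maximal disjoint family
    obtain ⟨s, hsl, hsd, hsc, hmax⟩ : ∃ s : Finset ι, (∀ i ∈ s, ∃ A, f i A) ∧
        (s : Set ι).PairwiseDisjoint D ∧ s.card ≤ m ∧
        ∀ i, (∃ A, f i A) → ¬ Disjoint (D i) (s.biUnion D) := by
      have hb : ∀ s : Finset ι, (∀ i ∈ s, ∃ A, f i A) → (s : Set ι).PairwiseDisjoint D →
          s.card < m := by
        intro s h1 h2
        by_contra hc
        push Not at hc
        obtain ⟨s', h3, h4⟩ := Finset.exists_subset_card_eq hc
        exact hbig ⟨s', h4, fun i hi => h1 i (h3 hi), h2.subset (Finset.coe_subset.2 h3)⟩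
      have hP : ∃ n : ℕ, ∃ s : Finset ι, s.card = m - n ∧ (∀ i ∈ s, ∃ A, f i A) ∧
          (s : Set ι).PairwiseDisjoint D := ⟨m, ∅, by simp, by simp, by simp⟩
      obtain ⟨s, h1, h2, h3⟩ := Nat.find_spec hP
      have hlt := hb s h2 h3
      refine ⟨s, h2, h3, hlt.le, fun i hi hdisj => ?_⟩
      have hne : (D i).Nonempty := by
        rw [Finset.nonempty_iff_ne_empty]
        intro h
        exact hsr ⟨i, hi, h⟩
      have his : i ∉ s := by
        intro h
        obtain ⟨z, hz⟩ := hne
        exact (Finset.disjoint_left.1 hdisj hz) (Finset.mem_biUnion.2 ⟨i, h, hz⟩)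
      have hn0 : Nat.find hP ≠ 0 := by
        intro h
        rw [h] at h1
        omega
      have hle : Nat.find hP ≤ m := Nat.find_min' hP ⟨∅, by simp, by simp, by simp⟩
      refine Nat.find_min hP (Nat.sub_lt (Nat.pos_of_ne_zero hn0) Nat.one_pos)
        ⟨insert i s, ?_, ?_, ?_⟩
      · rw [Finset.card_insert_of_notMem his, h1]
        omega
      · intro j hj
        rcases Finset.mem_insert.1 hj with rfl | hj
        · exact hi
        · exact h2 j hj
      · rw [Finset.coe_insert]
        refine h3.insert fun j hj _ => ?_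
        rw [Finset.disjoint_biUnion_right] at hdisj
        exact hdisj j (Finset.mem_coe.1 hj)
    set U := s.biUnion D with hU
    have hUc : U.card ≤ m * (w + 1) := by
      refine le_trans Finset.card_biUnion_le ?_
      refine le_trans (Finset.sum_le_card_nsmul _ _ (w + 1) fun i hi => hlive i (hsl i hi)) ?_
      rw [smul_eq_mul]
      exact Nat.mul_le_mul_right _ hsc
    have hk : ∀ T : Finset (List Bool), ∃ t : DT, t.depth ≤ m * w ^ 2 ∧
        t.In (⋃ i, ((D i \ U : Finset (List Bool)) : Set (List Bool))) ∧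
        (randomP p).real {A | ¬ (t.eval A = true ↔ ∃ i, f i (ow U T A))} ≤ (1 - c ^ W) ^ m := by
      intro T
      refine ih (by omega) ι (fun i A => f i (ow U T A)) (fun i => D i \ U) ?_ ?_ ?_
      · intro i A A' h
        refine hloc i _ _ fun z hz => ?_
        unfold ow
        by_cases hzU : z ∈ U
        · rw [if_pos hzU, if_pos hzU]
        · rw [if_neg hzU, if_neg hzU]
          exact h z (Finset.mem_sdiff.2 ⟨hz, hzU⟩)
      · intro i
        exact Finset.sdiff_subset.trans (hS i)
      · rintro i ⟨A, hA⟩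
        have h1 := hlive i ⟨_, hA⟩
        have h2 := hmax i ⟨_, hA⟩
        rw [Finset.not_disjoint_iff] at h2
        obtain ⟨z, hz1, hz2⟩ := h2
        have h3 : (D i \ U).card < (D i).card :=
          Finset.card_lt_card ⟨Finset.sdiff_subset, fun h => (Finset.mem_sdiff.1 (h hz1)).2 hz2⟩
        omega
    choose k hk1 hk2 hk3 using hk
    refine ⟨DT.qall U.toList k, ?_, ?_, ?_⟩
    · refine (DT.depth_qall U.toList k hk1).trans ?_
      rw [Finset.length_toList]
      calc U.card + m * w ^ 2 ≤ m * (w + 1) + m * w ^ 2 := by omega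
        _ = m * (w + 1 + w ^ 2) := by ring
        _ ≤ m * (w + 1) ^ 2 := Nat.mul_le_mul_left _ (by nlinarith)
    · refine DT.in_qall _ _ ?_ fun T => DT.In.mono ?_ _ (hk2 T)
      · intro z hz
        rw [Finset.mem_toList, hU, Finset.mem_biUnion] at hz
        obtain ⟨i, _, hz⟩ := hz
        exact Set.mem_iUnion.2 ⟨i, Finset.mem_coe.2 hz⟩
      · refine Set.iUnion_mono fun i => ?_
        exact Finset.coe_subset.2 Finset.sdiff_subset
    · set Er : Set Oracle := {A | ¬ ((DT.qall U.toList k).eval A = true ↔ ∃ i, f i A)} with hEr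
      have hloc' : ∀ A A' : Oracle, (∀ z ∈ (S : Set (List Bool)), A z = A' z) →
          ((∃ i, f i A) ↔ ∃ i, f i A') := by
        intro A A' h
        refine exists_congr fun i => hloc i A A' fun z hz => h z (Finset.mem_coe.2 (hS i hz))
      have hinS : (DT.qall U.toList k).In (S : Set (List Bool)) := by
        refine DT.in_qall _ _ ?_ fun T => DT.In.mono ?_ _ (hk2 T)
        · intro z hz
          rw [Finset.mem_toList, hU, Finset.mem_biUnion] at hz
          obtain ⟨i, _, hz⟩ := hz
          exact Finset.mem_coe.2 (hS i hz)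
        · refine Set.iUnion_subset fun i => ?_
          exact Finset.coe_subset.2 (Finset.sdiff_subset.trans (hS i))
      have hm : MeasurableSet Er := by
        refine measurableSet_of_loc (K := (S : Set (List Bool))) (Finset.finite_toSet _) ?_
        intro A A' h
        show ¬ _ ↔ ¬ _
        rw [DT.eval_congr h _ hinS, hloc' A A' h]
      rw [resample p hm U]
      have hterm : ∀ T ∈ U.powerset, wt p U T * (randomP p).real {A | ow U T A ∈ Er} ≤
          wt p U T * (1 - c ^ W) ^ m := by
        intro T hT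
        refine mul_le_mul_of_nonneg_left ?_ (wt_nonneg p U T)
        refine le_trans (le_of_eq ?_) (hk3 T)
        congr 1
        ext A
        show ¬ ((DT.qall U.toList k).eval (ow U T A) = true ↔ ∃ i, f i (ow U T A)) ↔ ¬ _
        rw [DT.eval_qall]
        have e1 : (U.toList.toFinset.filter fun z => ow U T A z = true) = T := by
          rw [Finset.toList_toFinset]
          ext z
          rw [Finset.mem_filter]
          unfold ow
          constructor
          · rintro ⟨h1, h2⟩
            rw [if_pos h1, decide_eq_true_eq] at h2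
            exact h2
          · intro h
            have h1 := Finset.mem_powerset.1 hT h
            exact ⟨h1, by rw [if_pos h1, decide_eq_true_eq]; exact h⟩
        have e2 : (k T).eval (ow U T A) = (k T).eval A := by
          refine DT.eval_congr (fun z hz => ?_) _ (hk2 T)
          obtain ⟨i, hz⟩ := Set.mem_iUnion.1 hz
          have := (Finset.mem_sdiff.1 (Finset.mem_coe.1 hz)).2
          unfold ow
          rw [if_neg this]
        rw [e1, e2]
      refine (Finset.sum_le_sum hterm).trans ?_
      rw [← Finset.sum_mul, sum_wt, one_mul]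

end Pool.Agent.T6.H49.RO
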